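import Mathlib

/-! Integer vectors in real subspaces defined by integer equations, bases of sublattices of `ℤ^m`. -/

namespace Pool.Agent.U234.WI

open Matrix

variable {m n r : ℕ}

/-- the real linear map with the integer matrix `B` -/
def lin (B : Matrix (Fin m) (Fin r) ℤ) (θ : Fin r → ℝ) : Fin m → ℝ :=
  fun i => ∑ j, (B i j : ℝ) * θ j

lemma lin_eq (B : Matrix (Fin m) (Fin r) ℤ) (θ : Fin r → ℝ) :
    lin B θ = (B.map (Int.cast : ℤ → ℝ)).mulVec θ := rfl

lemma map_cast_mul (B : Matrix (Fin m) (Fin n) ℤ) (C : Matrix (Fin n) (Fin r) ℤ) :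
    (B * C).map (Int.cast : ℤ → ℝ) = B.map (Int.cast : ℤ → ℝ) * C.map (Int.cast : ℤ → ℝ) :=
  Matrix.map_mul (f := Int.castRingHom ℝ)

lemma lin_mul (B : Matrix (Fin m) (Fin n) ℤ) (C : Matrix (Fin n) (Fin r) ℤ) (θ : Fin r → ℝ) :
    lin (B * C) θ = lin B (lin C θ) := by
  rw [lin_eq, lin_eq, lin_eq, map_cast_mul, Matrix.mulVec_mulVec]

lemma lin_add (B : Matrix (Fin m) (Fin r) ℤ) (θ θ' : Fin r → ℝ) :
    lin B (θ + θ') = lin B θ + lin B θ' := by
  rw [lin_eq, lin_eq, lin_eq, Matrix.mulVec_add]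

lemma lin_smul (B : Matrix (Fin m) (Fin r) ℤ) (t : ℝ) (θ : Fin r → ℝ) :
    lin B (t • θ) = t • lin B θ := by
  rw [lin_eq, lin_eq, Matrix.mulVec_smul]

lemma lin_zero (B : Matrix (Fin m) (Fin r) ℤ) : lin B 0 = 0 := by
  rw [lin_eq, Matrix.mulVec_zero]

lemma lin_one (θ : Fin m → ℝ) : lin (1 : Matrix (Fin m) (Fin m) ℤ) θ = θ := by
  rw [lin_eq, Matrix.map_one (Int.cast : ℤ → ℝ) Int.cast_zero Int.cast_one, Matrix.one_mulVec]

/-- integer vectors as real vectors -/
def rv (k : Fin m → ℤ) : Fin m → ℝ := fun i => (k i : ℝ)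

lemma rv_mulVec (B : Matrix (Fin m) (Fin r) ℤ) (k : Fin r → ℤ) : rv (B.mulVec k) = lin B (rv k) := by
  funext i
  simp [rv, lin, Matrix.mulVec, dotProduct]

lemma rv_ne_zero {k : Fin m → ℤ} (h : k ≠ 0) : rv k ≠ 0 := by
  intro h0
  apply h
  funext i
  have := congrFun h0 i
  simpa [rv] using this

/-- An integer linear system with a real solution `w` on which an integer functional does not
vanish has an integer solution on which the functional does not vanish. -/
lemma exists_int (S : Set (Fin m → ℤ)) (r₀ : Fin m → ℤ) (w : Fin m → ℝ)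
    (hS : ∀ s ∈ S, ∑ i, (s i : ℝ) * w i = 0) (h0 : ∑ i, (r₀ i : ℝ) * w i ≠ 0) :
    ∃ k : Fin m → ℤ, (∀ s ∈ S, ∑ i, s i * k i = 0) ∧ ∑ i, r₀ i * k i ≠ 0 := by
  classical
  let cq : (Fin m → ℤ) → (Fin m → ℚ) := fun s i => (s i : ℚ)
  let W : Submodule ℚ (Fin m → ℚ) := Submodule.span ℚ (cq '' S)
  let φ : (Fin m → ℚ) →ₗ[ℚ] ℝ :=
    { toFun := fun x => ∑ i, (x i : ℝ) * w i
      map_add' := by
        intro x y
        simp [add_mul, Finset.sum_add_distrib]
      map_smul' := by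
        intro c x
        simp only [Pi.smul_apply, smul_eq_mul, Rat.cast_mul, RingHom.id_apply, Rat.smul_def,
          Finset.mul_sum]
        exact Finset.sum_congr rfl fun i _ => by ring }
  have hφ : ∀ s : Fin m → ℤ, φ (cq s) = ∑ i, (s i : ℝ) * w i := by
    intro s
    show ∑ i, (((s i : ℚ)) : ℝ) * w i = _
    exact Finset.sum_congr rfl fun i _ => by norm_cast
  have hW : W ≤ LinearMap.ker φ := by
    rw [Submodule.span_le]
    rintro _ ⟨s, hs, rfl⟩
    show φ (cq s) = 0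
    rw [hφ, hS s hs]
  have hnot : cq r₀ ∉ W := by
    intro h
    have h1 : φ (cq r₀) = 0 := hW h
    rw [hφ] at h1
    exact h0 h1
  obtain ⟨f, hf0, hf⟩ := Submodule.exists_le_ker_of_notMem hnot
  obtain ⟨b, hb⟩ := IsLocalization.exist_integer_multiples_of_finite (nonZeroDivisors ℤ)
    (fun i : Fin m => f (Pi.single i 1))
  choose k hk using hb
  have hkf : ∀ i, (k i : ℚ) = (b : ℤ) * f (Pi.single i 1) := by
    intro i
    have := hk i
    simpa [Algebra.smul_def] using this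
  have hfs : ∀ s : Fin m → ℤ, ((∑ i, s i * k i : ℤ) : ℚ) = (b : ℤ) * f (cq s) := by
    intro s
    have h1 : cq s = ∑ i, (s i : ℚ) • (Pi.single i 1 : Fin m → ℚ) := by
      funext j
      simp [cq, Finset.sum_apply, Pi.single_apply]
    rw [h1, map_sum]
    push_cast
    rw [Finset.mul_sum]
    refine Finset.sum_congr rfl fun i _ => ?_
    rw [hkf i, map_smul, smul_eq_mul]
    ring
  refine ⟨k, fun s hs => ?_, fun h => ?_⟩
  · have h1 : f (cq s) = 0 := hf (Submodule.subset_span ⟨s, hs, rfl⟩)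
    have h2 := hfs s
    rw [h1, mul_zero] at h2
    exact_mod_cast h2
  · have h2 := hfs r₀
    rw [h] at h2
    have h3 : ((b : ℤ) : ℚ) ≠ 0 := by
      have := nonZeroDivisors.ne_zero b.2
      exact_mod_cast this
    have h4 : f (cq r₀) = 0 := by
      rcases mul_eq_zero.1 (h2.symm.trans (by norm_num)) with h5 | h5
      · exact absurd h5 h3
      · exact h5
    exact hf0 h4

/-- an integer matrix injective on integer vectors is injective on real vectors -/
lemma injective_real (C : Matrix (Fin m) (Fin r) ℤ)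
    (hC : ∀ v : Fin r → ℤ, C.mulVec v = 0 → v = 0) (v : Fin r → ℝ) (hv : lin C v = 0) : v = 0 := by
  classical
  have h1 : (Cᵀ * C).det ≠ 0 := by
    intro h
    obtain ⟨u, hu, hu0⟩ := Matrix.exists_mulVec_eq_zero_iff.2 h
    apply hu
    apply hC
    have h2 : (C.mulVec u) ⬝ᵥ (C.mulVec u) = 0 := by
      have h3 : (Cᵀ * C).mulVec u = Cᵀ.mulVec (C.mulVec u) := by rw [Matrix.mulVec_mulVec]
      rw [h3] at hu0
      have h4 : u ⬝ᵥ Cᵀ.mulVec (C.mulVec u) = 0 := by rw [hu0, dotProduct_zero]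
      rw [Matrix.dotProduct_mulVec, Matrix.vecMul_transpose] at h4
      exact h4
    exact dotProduct_self_eq_zero.1 h2
  have h2 : ((Cᵀ * C).map (Int.cast : ℤ → ℝ)).det ≠ 0 := by
    have h3 : ((Cᵀ * C).map (Int.cast : ℤ → ℝ)).det = (((Cᵀ * C).det : ℤ) : ℝ) := by
      have := (Int.castRingHom ℝ).map_det (Cᵀ * C)
      simpa using this.symm
    rw [h3]
    exact_mod_cast h1
  by_contra hv0
  apply h2
  apply Matrix.exists_mulVec_eq_zero_iff.1
  refine ⟨v, hv0, ?_⟩
  rw [map_cast_mul, ← Matrix.mulVec_mulVec, ← lin_eq C, hv, Matrix.mulVec_zero]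

/-- a basis of a sublattice, as a matrix -/
lemma exists_basis (L : Submodule ℤ (Fin m → ℤ)) :
    ∃ C : Matrix (Fin m) (Fin (Module.finrank ℤ L)) ℤ,
      (∀ v, C.mulVec v ∈ L) ∧ (∀ k ∈ L, ∃ v, C.mulVec v = k) ∧ (∀ v, C.mulVec v = 0 → v = 0) := by
  classical
  let b := Module.finBasis ℤ L
  let C : Matrix (Fin m) (Fin (Module.finrank ℤ L)) ℤ := fun i j => (b j : Fin m → ℤ) i
  have h1 : ∀ v, C.mulVec v = ((∑ j, v j • b j : L) : Fin m → ℤ) := by
    intro v
    funext i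
    simp only [C, Matrix.mulVec, dotProduct, Submodule.coe_sum, Finset.sum_apply,
      Submodule.coe_smul, Pi.smul_apply, smul_eq_mul]
    exact Finset.sum_congr rfl fun j _ => mul_comm _ _
  refine ⟨C, fun v => ?_, fun k hk => ?_, fun v hv => ?_⟩
  · rw [h1]
    exact Subtype.property _
  · refine ⟨b.equivFun ⟨k, hk⟩, ?_⟩
    rw [h1]
    have := b.sum_equivFun ⟨k, hk⟩
    rw [this]
  · rw [h1] at hv
    have h2 : (∑ j, v j • b j : L) = 0 := Subtype.ext hv
    have h3 := b.linearIndependent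
    rw [Fintype.linearIndependent_iff] at h3
    funext j
    exact h3 v h2 j

/-- the matrix of the restriction -/
lemma exists_restrict (L : Submodule ℤ (Fin m → ℤ)) (C : Matrix (Fin m) (Fin r) ℤ)
    (h1 : ∀ v, C.mulVec v ∈ L) (h2 : ∀ k ∈ L, ∃ v, C.mulVec v = k)
    (B : Matrix (Fin m) (Fin m) ℤ) (hB : ∀ k ∈ L, B.mulVec k ∈ L) :
    ∃ N : Matrix (Fin r) (Fin r) ℤ, B * C = C * N := by
  classical
  have h3 : ∀ j : Fin r, ∃ v, C.mulVec v = B.mulVec (C.mulVec (Pi.single j 1)) := fun j =>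
    h2 _ (hB _ (h1 _))
  choose v hv using h3
  refine ⟨fun i j => v j i, ?_⟩
  ext i j
  have h4 := congrFun (hv j) i
  rw [Matrix.mulVec_mulVec, Matrix.mulVec_single_one] at h4
  rw [Matrix.mul_apply]
  exact h4.symm

end Pool.Agent.U234.WI
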