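import Mathlib
import Pool.Agent.U234.WI.Alg
import Pool.Agent.W669.Cone.LorE

/-! Linear algebra: eigenvectors and commutators, forms in three variables. -/

noncomputable section

namespace Pool.Agent.U234.WI

open Matrix Pool.Agent.W669.LorStmt

variable {m r : ℕ}

lemma one_of_commutator {G : Type*} [Group G] (c : G →* ℂ) {g : G} (hg : g ∈ derivedSeries G 1) :
    c g = 1 := by
  rw [derivedSeries_one] at hg
  have h1 := Abelianization.commutator_subset_ker c.toHomUnits hg
  rw [MonoidHom.mem_ker] at h1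
  have h2 := congrArg (fun u : ℂˣ => (u : ℂ)) h1
  simpa using h2

/-- the complex matrix -/
def cm (B : Matrix (Fin m) (Fin m) ℤ) : Matrix (Fin m) (Fin m) ℂ := B.map (Int.cast : ℤ → ℂ)

lemma cm_mul (B C : Matrix (Fin m) (Fin m) ℤ) : cm (B * C) = cm B * cm C :=
  Matrix.map_mul (f := Int.castRingHom ℂ)

lemma cm_one : cm (1 : Matrix (Fin m) (Fin m) ℤ) = 1 :=
  Matrix.map_one (Int.cast : ℤ → ℂ) Int.cast_zero Int.cast_one

/-- a common eigenvector is fixed by the commutator subgroup -/
lemma fix_of_eigen {G : Type*} [Group G] (ρ : G →* Matrix (Fin m) (Fin m) ℤ) {v : Fin m → ℂ}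
    (hv : v ≠ 0) (h : ∀ g : G, ∃ c : ℂ, (cm (ρ g)).mulVec v = c • v) {g : G}
    (hg : g ∈ derivedSeries G 1) : (cm (ρ g)).mulVec v = v := by
  choose c hc using h
  obtain ⟨i, hi⟩ : ∃ i, v i ≠ 0 := by
    by_contra hno
    push Not at hno
    exact hv (funext hno)
  let χ : G →* ℂ :=
    { toFun := c
      map_one' := by
        have h1 := congrFun (hc 1) i
        rw [map_one, cm_one, Matrix.one_mulVec] at h1
        have h2 : v i = c 1 * v i := h1
        exact (mul_right_cancel₀ hi (by rw [one_mul]; exact h2)).symm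
      map_mul' := by
        intro a b
        have h1 := congrFun (hc (a * b)) i
        rw [map_mul, cm_mul, ← Matrix.mulVec_mulVec, hc b, Matrix.mulVec_smul, hc a] at h1
        have h2 : c b * (c a * v i) = c (a * b) * v i := h1
        exact mul_right_cancel₀ hi (by rw [← h2]; ring) }
  have h1 : c g = 1 := one_of_commutator χ hg
  rw [hc, h1, one_smul]

/-- a common coeigenvector is fixed by the commutator subgroup -/
lemma fix_of_coeigen {G : Type*} [Group G] (ρ : G →* Matrix (Fin m) (Fin m) ℤ) {v : Fin m → ℂ}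
    (hv : v ≠ 0) (h : ∀ g : G, ∃ c : ℂ, Matrix.vecMul v (cm (ρ g)) = c • v) {g : G}
    (hg : g ∈ derivedSeries G 1) : Matrix.vecMul v (cm (ρ g)) = v := by
  choose c hc using h
  obtain ⟨i, hi⟩ : ∃ i, v i ≠ 0 := by
    by_contra hno
    push Not at hno
    exact hv (funext hno)
  let χ : G →* ℂ :=
    { toFun := c
      map_one' := by
        have h1 := congrFun (hc 1) i
        rw [map_one, cm_one, Matrix.vecMul_one] at h1
        have h2 : v i = c 1 * v i := h1
        exact (mul_right_cancel₀ hi (by rw [one_mul]; exact h2)).symm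
      map_mul' := by
        intro a b
        have h1 := congrFun (hc (a * b)) i
        rw [map_mul, cm_mul, ← Matrix.vecMul_vecMul, hc a, Matrix.smul_vecMul, hc b] at h1
        have h2 : c a * (c b * v i) = c (a * b) * v i := h1
        exact mul_right_cancel₀ hi (by rw [← h2]; ring) }
  have h1 : c g = 1 := one_of_commutator χ hg
  rw [hc, h1, one_smul]

/-- real and imaginary parts of a fixed vector -/
lemma real_fix {B : Matrix (Fin m) (Fin m) ℤ} {v : Fin m → ℂ} (h : (cm B).mulVec v = v) :
    lin B (fun i => (v i).re) = (fun i => (v i).re) ∧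
      lin B (fun i => (v i).im) = (fun i => (v i).im) := by
  constructor
  · funext i
    have h1 := congrArg Complex.re (congrFun h i)
    simp only [Matrix.mulVec, dotProduct, cm, Matrix.map_apply, Complex.re_sum, Complex.mul_re,
      Complex.intCast_re, Complex.intCast_im, zero_mul, sub_zero] at h1
    exact h1
  · funext i
    have h1 := congrArg Complex.im (congrFun h i)
    simp only [Matrix.mulVec, dotProduct, cm, Matrix.map_apply, Complex.im_sum, Complex.mul_im,
      Complex.intCast_re, Complex.intCast_im, zero_mul, add_zero] at h1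
    exact h1

/-- real and imaginary parts of a fixed covector -/
lemma real_cofix {B : Matrix (Fin m) (Fin m) ℤ} {v : Fin m → ℂ} (h : Matrix.vecMul v (cm B) = v) :
    (∀ j, ∑ i, (v i).re * (B i j : ℝ) = (v j).re) ∧
      (∀ j, ∑ i, (v i).im * (B i j : ℝ) = (v j).im) := by
  constructor
  · intro i
    have h1 := congrArg Complex.re (congrFun h i)
    simp only [Matrix.vecMul, dotProduct, cm, Matrix.map_apply, Complex.re_sum, Complex.mul_re,
      Complex.intCast_re, Complex.intCast_im, mul_zero, sub_zero] at h1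
    exact h1
  · intro i
    have h1 := congrArg Complex.im (congrFun h i)
    simp only [Matrix.vecMul, dotProduct, cm, Matrix.map_apply, Complex.im_sum, Complex.mul_im,
      Complex.intCast_re, Complex.intCast_im, mul_zero, zero_add] at h1
    exact h1

/-- a sublattice in the kernel of a nonzero real functional -/
lemma finrank_lt (L : Submodule ℤ (Fin m → ℤ)) (y : Fin m → ℝ) (hy : y ≠ 0)
    (h : ∀ k ∈ L, ∑ i, y i * (k i : ℝ) = 0) : Module.finrank ℤ L < m := by
  classical
  obtain ⟨C, h1, h2, h3⟩ := exists_basis L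
  let F : (Fin (Module.finrank ℤ L) → ℝ) →ₗ[ℝ] (Fin m → ℝ) :=
    Matrix.mulVecLin (C.map (Int.cast : ℤ → ℝ))
  have hF : Function.Injective F := by
    rw [← LinearMap.ker_eq_bot, LinearMap.ker_eq_bot']
    intro v hv
    exact injective_real C h3 v hv
  let Y : (Fin m → ℝ) →ₗ[ℝ] ℝ := Fintype.linearCombination ℝ y
  have hY : ∀ v, Y v = ∑ i, y i * v i := by
    intro v
    simp [Y, Fintype.linearCombination_apply, mul_comm]
  have hYF : LinearMap.range F ≤ LinearMap.ker Y := by
    rintro _ ⟨v, rfl⟩
    have h4 : F v = ∑ j, v j • (fun i => (C i j : ℝ)) := by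
      funext i
      simp only [F, Matrix.mulVecLin_apply, Matrix.mulVec, dotProduct, Matrix.map_apply,
        Finset.sum_apply, Pi.smul_apply, smul_eq_mul]
      exact Finset.sum_congr rfl fun j _ => mul_comm _ _
    rw [LinearMap.mem_ker, h4, map_sum]
    refine Finset.sum_eq_zero fun j _ => ?_
    rw [map_smul, hY]
    have h5 := h _ (h1 (Pi.single j 1))
    rw [Matrix.mulVec_single_one] at h5
    have h6 : ∑ i, y i * (C i j : ℝ) = 0 := h5
    rw [h6, smul_zero]
  have h4 : LinearMap.ker Y ≠ ⊤ := by
    intro h5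
    apply hy
    funext i
    have h6 : Y (Pi.single i 1) = 0 := by
      have : (Pi.single i 1 : Fin m → ℝ) ∈ LinearMap.ker Y := by rw [h5]; trivial
      exact this
    rw [hY] at h6
    simpa [Pi.single_apply] using h6
  have h5 : Module.finrank ℝ (LinearMap.range F) = Module.finrank ℤ L := by
    rw [LinearMap.finrank_range_of_inj hF, Module.finrank_fin_fun]
  have h6 := Submodule.finrank_mono hYF
  have h7 := Submodule.finrank_lt h4
  rw [Module.finrank_fin_fun] at h7
  omega

/-! ### real symmetric forms in three variables -/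

lemma form_smul_left (G : Matrix (Fin m) (Fin m) ℝ) (c : ℝ) (u v : Fin m → ℝ) :
    form (c • G) u v = c * form G u v := by
  simp only [form, Matrix.smul_apply, smul_eq_mul, Finset.mul_sum]
  exact Finset.sum_congr rfl fun i _ => Finset.sum_congr rfl fun j _ => by ring

lemma form_eq (G : Matrix (Fin m) (Fin m) ℝ) (u v : Fin m → ℝ) :
    form G u v = u ⬝ᵥ G.mulVec v := by
  simp only [form, dotProduct, Matrix.mulVec, Finset.mul_sum]
  exact Finset.sum_congr rfl fun i _ => Finset.sum_congr rfl fun j _ => by ring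

lemma form_bil (G : Matrix (Fin m) (Fin m) ℝ) (u v : Fin m → ℝ) : bil G u v = form G u v := rfl

/-- a nondegenerate symmetric form in three variables is, up to sign, positive definite or
Lorentzian -/
lemma classify (G : Matrix (Fin 3) (Fin 3) ℝ) (hs : ∀ i j, G i j = G j i) (hd : G.det ≠ 0) :
    ∃ s : ℝ, (s = 1 ∨ s = -1) ∧
      ((∀ v, v ≠ 0 → 0 < form (s • G) v v) ∨ IsLorentzian (s • G)) := by
  classical
  have hsym : ∀ u v, form G u v = form G v u := by
    intro u v
    unfold form
    rw [Finset.sum_comm]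
    refine Finset.sum_congr rfl fun i _ => Finset.sum_congr rfl fun j _ => ?_
    rw [hs j i]
    ring
  let Bf : LinearMap.BilinForm ℝ (Fin 3 → ℝ) := bil G
  have hB : LinearMap.IsSymm Bf := ⟨fun u v => hsym u v⟩
  obtain ⟨b₀, hb₀⟩ := LinearMap.BilinForm.exists_orthogonal_basis hB
  have h3 : Module.finrank ℝ (Fin 3 → ℝ) = 3 := Module.finrank_fin_fun ℝ
  let b : Module.Basis (Fin 3) ℝ (Fin 3 → ℝ) := b₀.reindex (finCongr h3)
  have hb : ∀ i j, i ≠ j → form G (b i) (b j) = 0 := by
    intro i j hij
    have h4 : (finCongr h3).symm i ≠ (finCongr h3).symm j := fun h => hij (Equiv.injective _ h)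
    have h5 := hb₀ h4
    simp only [b, Module.Basis.reindex_apply]
    exact h5
  set l : Fin 3 → ℝ := fun i => form G (b i) (b i) with hl
  have hexp : ∀ i v, form G (b i) v = b.repr v i * l i := by
    intro i v
    conv_lhs => rw [← b.sum_repr v]
    rw [← form_bil, map_sum]
    rw [Finset.sum_eq_single i]
    · rw [map_smul, form_bil, smul_eq_mul]
    · intro j _ hj
      rw [map_smul, form_bil, hb i j hj.symm, smul_zero]
    · intro h
      exact absurd (Finset.mem_univ i) h
  have hQ : ∀ v, form G v v = ∑ i, b.repr v i ^ 2 * l i := by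
    intro v
    have h4 : form G v v = bil G (∑ i, b.repr v i • b i) v := by
      rw [b.sum_repr v, form_bil]
    rw [h4, map_sum, LinearMap.sum_apply]
    refine Finset.sum_congr rfl fun i _ => ?_
    rw [map_smul, LinearMap.smul_apply, form_bil, hexp, smul_eq_mul]
    ring
  have hl0 : ∀ i, l i ≠ 0 := by
    intro i h0
    have h4 : ∀ v, form G v (b i) = 0 := by
      intro v
      rw [hsym, hexp, h0, mul_zero]
    have h5 : G.mulVec (b i) = 0 := by
      funext j
      have h6 := h4 (Pi.single j 1)
      rw [form_eq] at h6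
      simpa using h6
    apply hd
    exact Matrix.exists_mulVec_eq_zero_iff.1 ⟨b i, b.ne_zero i, h5⟩
  have hv : ∀ v, v ≠ 0 → ∃ i, b.repr v i ≠ 0 := by
    intro v hv0
    by_contra hno
    push Not at hno
    apply hv0
    rw [← b.sum_repr v]
    exact Finset.sum_eq_zero fun i _ => by rw [hno i, zero_smul]
  -- the definite case
  have hdef : ∀ s : ℝ, (∀ i, 0 < s * l i) → ∀ v, v ≠ 0 → 0 < form (s • G) v v := by
    intro s hp v hv0
    obtain ⟨i, hi⟩ := hv v hv0
    rw [form_smul_left, hQ, Finset.mul_sum]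
    refine Finset.sum_pos' (fun j _ => ?_) ⟨i, Finset.mem_univ i, ?_⟩
    · have := hp j
      have h5 : s * (b.repr v j ^ 2 * l j) = b.repr v j ^ 2 * (s * l j) := by ring
      rw [h5]
      positivity
    · have := hp i
      have h5 : s * (b.repr v i ^ 2 * l i) = b.repr v i ^ 2 * (s * l i) := by ring
      rw [h5]
      positivity
  have hlor : ∀ s : ℝ, s ≠ 0 → ∀ a : Fin 3, (0 < s * l a) → (∀ i, i ≠ a → s * l i < 0) →
      IsLorentzian (s • G) := by
    intro s hs0 a hpos hneg
    refine ⟨fun i j => by rw [Matrix.smul_apply, Matrix.smul_apply, hs i j], b a, ?_, ?_⟩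
    · rw [form_smul_left]
      exact hpos
    · intro v h4 hv0
      rw [form_smul_left, hexp] at h4
      have h5 : b.repr v a = 0 := by
        rcases mul_eq_zero.1 h4 with h | h
        · exact absurd h hs0
        · rcases mul_eq_zero.1 h with h | h
          · exact h
          · exact absurd h (hl0 a)
      obtain ⟨i, hi⟩ := hv v hv0
      have hia : i ≠ a := fun h => hi (by rw [h, h5])
      rw [form_smul_left, hQ, Finset.mul_sum]
      refine Finset.sum_neg' (fun j _ => ?_) ⟨i, Finset.mem_univ i, ?_⟩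
      · rcases eq_or_ne j a with rfl | hj
        · rw [h5]; simp
        · have := hneg j hj
          have h6 : s * (b.repr v j ^ 2 * l j) = b.repr v j ^ 2 * (s * l j) := by ring
          rw [h6]
          exact mul_nonpos_of_nonneg_of_nonpos (sq_nonneg _) this.le
      · have := hneg i hia
        have h6 : s * (b.repr v i ^ 2 * l i) = b.repr v i ^ 2 * (s * l i) := by ring
        rw [h6]
        exact mul_neg_of_pos_of_neg (by positivity) this
  have hsg : ∀ i, 0 < l i ∨ l i < 0 := fun i => (lt_or_gt_of_ne (hl0 i)).symm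
  have fin3 : ∀ {p : Fin 3 → Prop}, p 0 → p 1 → p 2 → ∀ i, p i := by
    intro p h0 h1 h2 i
    fin_cases i <;> assumption
  rcases hsg 0 with h0 | h0 <;> rcases hsg 1 with h1 | h1 <;> rcases hsg 2 with h2 | h2
  · exact ⟨1, Or.inl rfl, Or.inl (hdef 1 (fin3 (by linarith) (by linarith) (by linarith)))⟩
  · exact ⟨-1, Or.inr rfl, Or.inr (hlor (-1) (by norm_num) 2 (by linarith)
      (fin3 (fun _ => by linarith) (fun _ => by linarith) (fun h => absurd rfl h)))⟩
  · exact ⟨-1, Or.inr rfl, Or.inr (hlor (-1) (by norm_num) 1 (by linarith)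
      (fin3 (fun _ => by linarith) (fun h => absurd rfl h) (fun _ => by linarith)))⟩
  · exact ⟨1, Or.inl rfl, Or.inr (hlor 1 (by norm_num) 0 (by linarith)
      (fin3 (fun h => absurd rfl h) (fun _ => by linarith) (fun _ => by linarith)))⟩
  · exact ⟨-1, Or.inr rfl, Or.inr (hlor (-1) (by norm_num) 0 (by linarith)
      (fin3 (fun h => absurd rfl h) (fun _ => by linarith) (fun _ => by linarith)))⟩
  · exact ⟨1, Or.inl rfl, Or.inr (hlor 1 (by norm_num) 1 (by linarith)
      (fin3 (fun _ => by linarith) (fun h => absurd rfl h) (fun _ => by linarith)))⟩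
  · exact ⟨1, Or.inl rfl, Or.inr (hlor 1 (by norm_num) 2 (by linarith)
      (fin3 (fun _ => by linarith) (fun _ => by linarith) (fun h => absurd rfl h)))⟩
  · exact ⟨-1, Or.inr rfl, Or.inl (hdef (-1) (fin3 (by linarith) (by linarith) (by linarith)))⟩

/-- integer matrices preserving a definite form: a finite set -/
lemma finite_definite (G : Matrix (Fin m) (Fin m) ℝ) (hG : ∀ v, v ≠ 0 → 0 < form G v v) :
    {B : Matrix (Fin m) (Fin m) ℤ | ∀ v, form G (lin B v) (lin B v) = form G v v}.Finite := by
  classical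
  -- a lower bound for the form
  have hcont : Continuous (fun v : Fin m → ℝ => form G v v) := by
    unfold form
    fun_prop
  obtain ⟨δ, hδ, hlow⟩ : ∃ δ > 0, ∀ v : Fin m → ℝ, δ * ‖v‖ ^ 2 ≤ form G v v := by
    rcases (Metric.sphere (0 : Fin m → ℝ) 1).eq_empty_or_nonempty with he | hne
    · refine ⟨1, one_pos, fun v => ?_⟩
      have hv : v = 0 := by
        by_contra h0
        have : (‖v‖⁻¹ • v) ∈ Metric.sphere (0 : Fin m → ℝ) 1 := by
          rw [mem_sphere_zero_iff_norm, norm_smul, norm_inv, norm_norm,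
            inv_mul_cancel₀ (norm_ne_zero_iff.2 h0)]
        rw [he] at this
        exact this
      rw [hv]
      simp [form]
    · obtain ⟨v₀, hv₀, hmin⟩ := (isCompact_sphere (0 : Fin m → ℝ) 1).exists_isMinOn hne
        hcont.continuousOn
      have hv₀0 : v₀ ≠ 0 := by
        intro h0
        rw [h0, mem_sphere_zero_iff_norm, norm_zero] at hv₀
        exact zero_ne_one hv₀
      refine ⟨form G v₀ v₀, hG _ hv₀0, fun v => ?_⟩
      rcases eq_or_ne v 0 with rfl | h0
      · simp [form]
      · have hn : ‖v‖ ≠ 0 := norm_ne_zero_iff.2 h0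
        have h1 : (‖v‖⁻¹ • v) ∈ Metric.sphere (0 : Fin m → ℝ) 1 := by
          rw [mem_sphere_zero_iff_norm, norm_smul, norm_inv, norm_norm, inv_mul_cancel₀ hn]
        have h2 := hmin h1
        have h3 : form G (‖v‖⁻¹ • v) (‖v‖⁻¹ • v) = ‖v‖⁻¹ ^ 2 * form G v v := by
          rw [← form_bil, map_smul, map_smul, LinearMap.smul_apply, form_bil]
          simp only [smul_eq_mul]
          ring
        have h2' : form G v₀ v₀ ≤ ‖v‖⁻¹ ^ 2 * form G v v := by
          rw [← h3]
          exact h2
        have h4 : ‖v‖ ^ 2 * (‖v‖⁻¹ ^ 2 * form G v v) = form G v v := by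
          field_simp
        calc form G v₀ v₀ * ‖v‖ ^ 2 ≤ (‖v‖⁻¹ ^ 2 * form G v v) * ‖v‖ ^ 2 := by gcongr
          _ = form G v v := by rw [mul_comm]; exact h4
  -- bounded entries
  let K : ℝ := ∑ j, (form G (Pi.single j 1) (Pi.single j 1) / δ + 1)
  obtain ⟨N, hN⟩ := exists_nat_gt K
  have hfin : {B : Matrix (Fin m) (Fin m) ℤ | ∀ i j, B i j ∈ Set.Icc (-(N : ℤ)) N}.Finite :=
    Set.Finite.pi' (ι := Fin m) (κ := fun _ => Fin m → ℤ)
      (t := fun _ => {f | ∀ j, f j ∈ Set.Icc (-(N : ℤ)) N})
      fun _ => Set.Finite.pi' fun _ => Set.finite_Icc _ _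
  refine hfin.subset ?_
  intro B hB i j
  have h1 := hB (Pi.single j 1)
  have h2 := hlow (lin B (Pi.single j 1))
  rw [h1] at h2
  have h3 : ‖lin B (Pi.single j 1)‖ ^ 2 ≤ form G (Pi.single j 1) (Pi.single j 1) / δ := by
    rw [le_div_iff₀ hδ]
    linarith
  have h4 : |(B i j : ℝ)| ≤ ‖lin B (Pi.single j 1)‖ := by
    have h5 := norm_le_pi_norm (lin B (Pi.single j 1)) i
    have h6 : lin B (Pi.single j 1) i = (B i j : ℝ) := by
      simp [lin, Pi.single_apply]
    rw [h6, Real.norm_eq_abs] at h5
    exact h5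
  have h5 : 0 ≤ form G (Pi.single j 1) (Pi.single j 1) / δ := (sq_nonneg _).trans h3
  have h6 : form G (Pi.single j 1) (Pi.single j 1) / δ + 1 ≤ K := by
    refine Finset.single_le_sum (f := fun j => form G (Pi.single j 1) (Pi.single j 1) / δ + 1)
      (fun j' _ => ?_) (Finset.mem_univ j)
    have h7 : 0 ≤ form G (Pi.single j' 1) (Pi.single j' 1) := by
      have := hG (Pi.single j' 1) (by
        intro h0
        have := congrFun h0 j'
        simp at this)
      exact this.le
    positivity
  have h7 : |(B i j : ℝ)| ≤ N := by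
    by_contra hno
    push Not at hno
    have h8 : K < ‖lin B (Pi.single j 1)‖ := hN.trans (hno.trans_le h4)
    nlinarith [norm_nonneg (lin B (Pi.single j 1))]
  have h8 : |B i j| ≤ (N : ℤ) := by exact_mod_cast h7
  exact abs_le.1 h8

end Pool.Agent.U234.WI
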