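import Mathlib
import Pool.Agent.U234.WI.Alg
import Pool.Agent.TH607.Fx.RedS
import Pool.Agent.W669.Cone.LorE

/-! The action of a sub-torus. -/

open scoped Topology ContDiff Manifold
open Set Metric Bundle Pool.Agent.Helper186 Pool.Agent.H826R2.WStmt Pool.Agent.TH607.FxStmt

noncomputable section

namespace Pool.Agent.U234.WI

set_option linter.unusedSectionVars false

universe u v w x

variable {E : Type u} [NormedAddCommGroup E] [NormedSpace ℝ E] [FiniteDimensional ℝ E]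
  {M : Type v} [TopologicalSpace M] [ChartedSpace E M] [IsManifold 𝓘(ℝ, E) ∞ M]
  {P : Type w} [TopologicalSpace P] [ChartedSpace E P] [IsManifold 𝓘(ℝ, E) ∞ P]
  {Γ : Type x} [Group Γ] [MulAction Γ P] {m r : ℕ} {β : P → Cov E}

/-- the linear map, as a continuous linear map -/
def linL (C : Matrix (Fin m) (Fin r) ℤ) : (Fin r → ℝ) →L[ℝ] (Fin m → ℝ) :=
  LinearMap.toContinuousLinearMap (Matrix.mulVecLin (C.map (Int.cast : ℤ → ℝ)))

lemma linL_apply (C : Matrix (Fin m) (Fin r) ℤ) (θ : Fin r → ℝ) : linL C θ = lin C θ := rfl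

/-- restriction of a torus symmetry along an integer matrix -/
def sub (A : TorusSymmetry β m) (C : Matrix (Fin m) (Fin r) ℤ) : TorusSymmetry β r where
  act := fun θ => A.act (lin C θ)
  smooth := by
    have h1 : ContMDiff (𝓘(ℝ, Fin r → ℝ).prod 𝓘(ℝ, E)) (𝓘(ℝ, Fin m → ℝ).prod 𝓘(ℝ, E)) ∞
        (fun p : (Fin r → ℝ) × P => ((lin C p.1, p.2) : (Fin m → ℝ) × P)) :=
      ((linL C).contMDiff.comp contMDiff_fst).prodMk contMDiff_snd
    exact A.smooth.comp h1
  zero := fun x => by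
    show A.act (lin C 0) x = x
    rw [lin_zero]
    exact A.zero x
  add := fun θ θ' x => by
    show A.act (lin C (θ + θ')) x = _
    rw [lin_add]
    exact A.add _ _ x
  period := fun k x => by
    show A.act (lin C (rv k)) x = x
    rw [← rv_mulVec]
    exact A.period _ x
  strict := fun θ => A.strict (lin C θ)

lemma mdiff_left (A : TorusSymmetry β m) (x : P) (θ : Fin m → ℝ) :
    MDifferentiableAt 𝓘(ℝ, Fin m → ℝ) 𝓘(ℝ, E) (fun θ => A.act θ x) θ := by
  have h1 : ContMDiff 𝓘(ℝ, Fin m → ℝ) 𝓘(ℝ, E) ∞ (fun θ => A.act θ x) :=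
    A.smooth.comp (contMDiff_id.prodMk contMDiff_const)
  exact (h1.mdifferentiable (by simp)) θ

lemma sub_D (A : TorusSymmetry β m) (C : Matrix (Fin m) (Fin r) ℤ) (x : P) (κ : Fin r → ℝ) :
    D (E' := E) (fun θ => (sub A C).act θ x) 0 κ = D (E' := E) (fun θ => A.act θ x) 0 (lin C κ) := by
  have h1 : (fun θ => (sub A C).act θ x) = (fun θ => A.act θ x) ∘ (linL C) := rfl
  unfold D
  rw [h1]
  have h0 : linL C 0 = 0 := map_zero _
  have hd : MDifferentiableAt 𝓘(ℝ, Fin m → ℝ) 𝓘(ℝ, E) (fun θ => A.act θ x) (linL C 0) :=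
    mdiff_left A x _
  rw [mfderiv_comp (I' := 𝓘(ℝ, Fin m → ℝ)) (0 : Fin r → ℝ) hd
    (linL C).mdifferentiableAt, (linL C).mfderiv_eq]
  show mfderiv 𝓘(ℝ, Fin m → ℝ) 𝓘(ℝ, E) (fun θ => A.act θ x) (linL C 0) (linL C κ) = _
  rw [h0]
  rfl

lemma sub_free (A : TorusSymmetry β m) (hA : LocallyFree E A.act) (C : Matrix (Fin m) (Fin r) ℤ)
    (hC : ∀ v : Fin r → ℤ, C.mulVec v = 0 → v = 0) : LocallyFree E (sub A C).act := by
  intro x κ h
  rw [sub_D] at h
  exact injective_real C hC κ (hA x _ h)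

/-- the torus action -/
def subFree (A : TorusSymmetry β m) (hA : LocallyFree E A.act) (C : Matrix (Fin m) (Fin r) ℤ)
    (hC : ∀ v : Fin r → ℤ, C.mulVec v = 0 → v = 0) : TorusAction β r where
  act := (sub A C).act
  smooth := (sub A C).smooth
  zero := (sub A C).zero
  add := (sub A C).add
  period := (sub A C).period
  strict := (sub A C).strict
  free := sub_free A hA C hC

/-- `B` is a monodromy matrix of `γ`: `γ (θ x) = (B θ) (γ x)` -/
def Mono {Γ : Type*} [Group Γ] {P : Type*} [MulAction Γ P] {m : ℕ} (act : (Fin m → ℝ) → P → P)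
    (γ : Γ) (B : Matrix (Fin m) (Fin m) ℤ) : Prop :=
  ∀ (θ : Fin m → ℝ) (x : P), γ • act θ x = act (fun i => ∑ j, (B i j : ℝ) * θ j) (γ • x)

lemma mono_sub (A : TorusSymmetry β m) (C : Matrix (Fin m) (Fin r) ℤ) {γ : Γ}
    {B : Matrix (Fin m) (Fin m) ℤ} (hB : Mono A.act γ B) {N : Matrix (Fin r) (Fin r) ℤ}
    (hN : B * C = C * N) : Mono (sub A C).act γ N := by
  intro θ x
  show γ • A.act (lin C θ) x = A.act (lin C (lin N θ)) (γ • x)
  rw [← lin_mul, ← hN, lin_mul]
  exact hB (lin C θ) x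

lemma orbitDim_le_rank (A : TorusSymmetry β r) (x : P) : orbitDim E A.act x ≤ r := by
  unfold orbitDim
  refine (LinearMap.finrank_range_le _).trans ?_
  rw [Module.finrank_fin_fun]

/-! ### actions which need not be locally free -/

section general

variable [T2Space M] [CompactSpace M] {α : M → Cov E} (hα : IsContact α) {R : M → E}
  (hR : IsReeb α R) [T2Space P] [SigmaCompactSpace P] [ConnectedSpace P]
  {q : P → M} (hq : IsQuotientMap E q Γ)

include hα hR hq

/-- small invariant sublattices -/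
theorem periodic_small (A : TorusSymmetry (pull (E := E) q α) m) (L : Submodule ℤ (Fin m → ℤ))
    (hL : Module.finrank ℤ L ≤ 2) (hne : ∃ k ∈ L, ∃ (t : ℝ) (x : P), A.act (t • rv k) x ≠ x)
    (hinv : ∀ γ : Γ, ∃ B, Mono A.act γ B ∧ ∀ k ∈ L, B.mulVec k ∈ L) :
    ∃ (c : ℝ → M) (T : ℝ), IsPeriodicOrbit R c T := by
  obtain ⟨C, h1, h2, h3⟩ := exists_basis L
  have hA' : Normalises Γ (sub A C).act := by
    intro γ
    obtain ⟨B, hB, hBL⟩ := hinv γ
    obtain ⟨N, hN⟩ := exists_restrict L C h1 h2 B hBL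
    exact ⟨N, mono_sub A C hB hN⟩
  obtain ⟨k, hk, t, x, hx⟩ := hne
  obtain ⟨v, rfl⟩ := h2 k hk
  refine exists_periodic_of_small α hα R hR q hq (sub A C) hA' ⟨t • rv v, x, ?_⟩ x
    ((orbitDim_le_rank _ x).trans hL)
  show A.act (lin C (t • rv v)) x ≠ x
  rwa [lin_smul, ← rv_mulVec]

/-- invariant sublattices on which the monodromy is virtually solvable -/
theorem periodic_solvable (A : TorusSymmetry (pull (E := E) q α) m) (L : Submodule ℤ (Fin m → ℤ))
    (hne : ∃ k ∈ L, ∃ (t : ℝ) (x : P), A.act (t • rv k) x ≠ x)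
    (hinv : ∀ γ : Γ, ∃ B, Mono A.act γ B ∧ ∀ k ∈ L, B.mulVec k ∈ L)
    (Γ₀ : Subgroup Γ) (hΓ₀ : Γ₀.FiniteIndex) (n : ℕ)
    (hs : ∀ g ∈ derivedSeries Γ₀ n, ∀ k ∈ L, ∀ (t : ℝ) (x : P),
      (g : Γ) • A.act (t • rv k) x = A.act (t • rv k) ((g : Γ) • x)) :
    ∃ (c : ℝ → M) (T : ℝ), IsPeriodicOrbit R c T := by
  classical
  obtain ⟨C, h1, h2, h3⟩ := exists_basis L
  have hA' : Normalises Γ (sub A C).act := by
    intro γ
    obtain ⟨B, hB, hBL⟩ := hinv γ
    obtain ⟨N, hN⟩ := exists_restrict L C h1 h2 B hBL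
    exact ⟨N, mono_sub A C hB hN⟩
  obtain ⟨k, hk, t, x, hx⟩ := hne
  obtain ⟨v, rfl⟩ := h2 k hk
  refine exists_periodic_solvable_all α hα R hR q hq (sub A C) hA' ⟨t • rv v, x, ?_⟩
    ⟨Γ₀, hΓ₀, n, ?_⟩
  · show A.act (lin C (t • rv v)) x ≠ x
    rwa [lin_smul, ← rv_mulVec]
  · intro g hg θ x
    show (g : Γ) • A.act (lin C θ) x = A.act (lin C θ) ((g : Γ) • x)
    -- write `lin C θ` as a sum of multiples of the columns
    have h4 : ∀ (s : Finset (Fin (Module.finrank ℤ L))) (x : P),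
        (g : Γ) • A.act (∑ j ∈ s, θ j • rv (C.mulVec (Pi.single j 1))) x =
          A.act (∑ j ∈ s, θ j • rv (C.mulVec (Pi.single j 1))) ((g : Γ) • x) := by
      intro s
      induction s using Finset.induction_on with
      | empty =>
        intro x
        rw [Finset.sum_empty, A.zero, A.zero]
      | insert j s hj ih =>
        intro x
        rw [Finset.sum_insert hj, A.add, A.add, hs g hg _ (h1 _), ih]
    have h5 : lin C θ = ∑ j, θ j • rv (C.mulVec (Pi.single j 1)) := by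
      funext i
      simp only [lin, Finset.sum_apply, Pi.smul_apply, smul_eq_mul, rv]
      refine Finset.sum_congr rfl fun j _ => ?_
      rw [Matrix.mulVec_single_one]
      exact mul_comm _ _
    rw [h5]
    exact h4 _ x

end general

end Pool.Agent.U234.WI
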