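import Mathlib
import Pool.Agent.U234.WI.Sub

/-! From real one-parameter groups commuting with a normal subgroup to invariant sublattices. -/

open scoped Topology ContDiff Manifold
open Set Metric Bundle Pool.Agent.Helper186 Pool.Agent.H826R2.WStmt Pool.Agent.TH607.FxStmt

noncomputable section

namespace Pool.Agent.U234.WI

set_option linter.unusedSectionVars false

universe u v w x

variable {E : Type u} [NormedAddCommGroup E] [NormedSpace ℝ E] [FiniteDimensional ℝ E]
  {M : Type v} [TopologicalSpace M] [ChartedSpace E M] [IsManifold 𝓘(ℝ, E) ∞ M]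
  {P : Type w} [TopologicalSpace P] [ChartedSpace E P] [IsManifold 𝓘(ℝ, E) ∞ P]
  {Γ : Type x} [Group Γ] [MulAction Γ P] {m r : ℕ}

section

variable {α : M → Cov E} {q : P → M} (A : TorusSymmetry (pull (E := E) q α) m)

/-- the sublattice of the integer vectors whose one-parameter group commutes with `N` -/
def comLat (N : Subgroup Γ) : Submodule ℤ (Fin m → ℤ) :=
  AddSubgroup.toIntSubmodule
    { carrier := {k | ∀ g ∈ N, ∀ (t : ℝ) (x : P), g • A.act (t • rv k) x = A.act (t • rv k) (g • x)}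
      zero_mem' := by
        intro g _ t x
        have h : t • rv (0 : Fin m → ℤ) = 0 := by
          funext i
          simp [rv]
        rw [h, A.zero, A.zero]
      add_mem' := by
        intro a b ha hb g hg t x
        have h : t • rv (a + b) = t • rv a + t • rv b := by
          funext i
          simp [rv, mul_add]
        rw [h, A.add, A.add, ha g hg, hb g hg]
      neg_mem' := by
        intro a ha g hg t x
        have h : t • rv (-a) = (-t) • rv a := by
          funext i
          simp [rv]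
        rw [h, ha g hg] }

lemma mem_comLat {N : Subgroup Γ} {k : Fin m → ℤ} : k ∈ comLat A N ↔ ∀ g ∈ N, ∀ (t : ℝ) (x : P),
    g • A.act (t • rv k) x = A.act (t • rv k) (g • x) := Iff.rfl

lemma comLat_inv {N : Subgroup Γ} [N.Normal] {γ : Γ} {B : Matrix (Fin m) (Fin m) ℤ}
    (hB : Mono A.act γ B) {k : Fin m → ℤ} (hk : k ∈ comLat A N) : B.mulVec k ∈ comLat A N := by
  rw [mem_comLat] at hk ⊢
  have h1 : ∀ (t : ℝ) (y : P), γ • A.act (t • rv k) y = A.act (t • rv (B.mulVec k)) (γ • y) := by
    intro t y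
    have h := hB (t • rv k) y
    rw [h]
    congr 1
    show lin B (t • rv k) = _
    rw [lin_smul, rv_mulVec]
  have h2 : ∀ (t : ℝ) (y : P), A.act (t • rv (B.mulVec k)) y = γ • A.act (t • rv k) (γ⁻¹ • y) := by
    intro t y
    rw [h1, smul_inv_smul]
  intro g hg t y
  have hg' : γ⁻¹ * g * γ ∈ N := by
    have := Subgroup.Normal.conj_mem (inferInstance : N.Normal) g hg γ⁻¹
    simpa using this
  rw [h2, h2]
  have h3 := hk _ hg' t (γ⁻¹ • y)
  calc g • γ • A.act (t • rv k) (γ⁻¹ • y)
      = γ • ((γ⁻¹ * g * γ) • A.act (t • rv k) (γ⁻¹ • y)) := by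
        rw [← mul_smul, ← mul_smul]
        congr 1
        group
    _ = γ • A.act (t • rv k) ((γ⁻¹ * g * γ) • γ⁻¹ • y) := by rw [h3]
    _ = γ • A.act (t • rv k) (γ⁻¹ • g • y) := by
        congr 2
        rw [← mul_smul, ← mul_smul]
        congr 1
        group

/-- integer equations of the isotropy algebra -/
lemma exists_eqs [T2Space P] (x : P) : ∃ (r : ℕ) (Q : Matrix (Fin r) (Fin m) ℤ),
    ∀ θ : Fin m → ℝ, lin Q θ = 0 ↔ ∀ t : ℝ, A.act (t • θ) x = x := by
  obtain ⟨L, hL⟩ := A.toTS.rational_isoAlg x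
  obtain ⟨r, J, Q, -, hQ⟩ := Pool.Agent.TH350.IntCompl.exists_complement L
  refine ⟨r, Q, fun θ => ?_⟩
  have h1 : lin Q θ = 0 ↔ θ ∈ A.toTS.isoAlg x := by
    rw [lin_eq, hQ θ, hL]
    rfl
  rw [h1, A.toTS.mem_isoAlg_iff]
  rfl

/-- **Real one-parameter groups and sublattices.** -/
lemma exists_mem_comLat [T2Space P] (hA : Normalises Γ A.act) (N : Subgroup Γ)
    (w : Fin m → ℝ) (hw : ∃ (t : ℝ) (x : P), A.act (t • w) x ≠ x)
    (hcom : ∀ g ∈ N, ∀ (t : ℝ) (x : P), g • A.act (t • w) x = A.act (t • w) (g • x)) :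
    ∃ k ∈ comLat A N, ∃ (t : ℝ) (x : P), A.act (t • rv k) x ≠ x := by
  classical
  choose ρ Q hQ using fun x => exists_eqs A x
  choose B hB using hA
  have hB' : ∀ γ, Mono A.act γ (B γ) := hB
  obtain ⟨t₀, x₀, hx₀⟩ := hw
  have h1 : lin (Q x₀) w ≠ 0 := fun h => hx₀ ((hQ x₀ w).1 h t₀)
  obtain ⟨i₀, hi₀⟩ : ∃ i, lin (Q x₀) w i ≠ 0 := by
    by_contra hno
    push Not at hno
    exact h1 (funext hno)
  let S : Set (Fin m → ℤ) := {s | ∃ g ∈ N, ∃ (y : P) (i : Fin (ρ y)),
    s = fun j => ((Q y * (B g - 1) : Matrix (Fin (ρ y)) (Fin m) ℤ) i j)}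
  have hSw : ∀ s ∈ S, ∑ j, (s j : ℝ) * w j = 0 := by
    rintro s ⟨g, hg, y, i, rfl⟩
    have h2 : lin (Q y) (lin (B g) w - w) = 0 := by
      rw [hQ]
      intro t
      have h3 : ∀ z, A.act (t • (lin (B g) w - w)) z = z := by
        intro z
        -- write `z = act (t w) (g x)`
        set x : P := g⁻¹ • A.act (-(t • w)) z with hx
        have hz : A.act (t • w) (g • x) = z := by
          rw [hx, smul_inv_smul, ← A.add, add_neg_cancel, A.zero]
        have h4 : A.act (t • lin (B g) w) (g • x) = A.act (t • w) (g • x) := by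
          rw [← hcom g hg t x]
          have h5 := hB' g (t • w) x
          rw [h5]
          congr 1
          show t • lin (B g) w = lin (B g) (t • w)
          rw [lin_smul]
        conv_lhs => rw [← hz]
        rw [← A.add]
        have h5 : t • (lin (B g) w - w) + t • w = t • lin (B g) w := by
          rw [smul_sub, sub_add_cancel]
        rw [h5, h4, hz]
      exact h3 y
    have h3 : lin (Q y * (B g - 1)) w = 0 := by
      rw [lin_mul]
      have h4 : lin (B g - 1) w = lin (B g) w - w := by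
        funext i
        simp [lin, Matrix.sub_apply, sub_mul, Finset.sum_sub_distrib, Matrix.one_apply]
      rw [h4, h2]
    exact congrFun h3 i
  obtain ⟨k, hk, hk0⟩ := exists_int S (fun j => Q x₀ i₀ j) w hSw hi₀
  have hkQ : ∀ g ∈ N, ∀ y, lin (Q y) (lin (B g) (rv k) - rv k) = 0 := by
    intro g hg y
    have h4 : lin (B g - 1) (rv k) = lin (B g) (rv k) - rv k := by
      funext i
      simp [lin, Matrix.sub_apply, sub_mul, Finset.sum_sub_distrib, Matrix.one_apply]
    rw [← h4, ← lin_mul]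
    funext i
    have h5 := hk _ ⟨g, hg, y, i, rfl⟩
    have h6 : ((∑ j, (Q y * (B g - 1) : Matrix (Fin (ρ y)) (Fin m) ℤ) i j * k j : ℤ) : ℝ) = 0 := by
      rw [h5]; norm_num
    push_cast at h6
    exact h6
  refine ⟨k, ?_, ?_⟩
  · rw [mem_comLat]
    intro g hg t x
    have h5 := hB' g (t • rv k) x
    rw [h5]
    show A.act (lin (B g) (t • rv k)) (g • x) = _
    rw [lin_smul]
    have h6 : ∀ z, A.act (t • (lin (B g) (rv k) - rv k)) z = z := fun z =>
      (hQ z _).1 (hkQ g hg z) t
    have h7 : t • lin (B g) (rv k) = t • (lin (B g) (rv k) - rv k) + t • rv k := by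
      rw [smul_sub, sub_add_cancel]
    rw [h7, A.add, h6]
  · by_contra hno
    push Not at hno
    have h2 : lin (Q x₀) (rv k) = 0 := (hQ x₀ _).2 fun t => hno t x₀
    have h3 := congrFun h2 i₀
    apply hk0
    have h4 : ((∑ j, Q x₀ i₀ j * k j : ℤ) : ℝ) = 0 := by
      push_cast
      exact h3
    exact_mod_cast h4

end

section general

variable [T2Space M] [CompactSpace M] {α : M → Cov E} (hα : IsContact α) {R : M → E}
  (hR : IsReeb α R) [T2Space P] [SigmaCompactSpace P] [ConnectedSpace P]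
  {q : P → M} (hq : IsQuotientMap E q Γ)

include hα hR hq

/-- **Virtually solvable pieces.** If the elements of a term of the derived series of a subgroup of
finite index commute with a nontrivial one-parameter group (with a real direction, possibly
irrational), then there is a periodic orbit. -/
theorem periodic_piece (A : TorusSymmetry (pull (E := E) q α) m) (hA : Normalises Γ A.act)
    (Γ₀ : Subgroup Γ) (hΓ₀ : Γ₀.FiniteIndex) (n : ℕ)
    (w : Fin m → ℝ) (hw : ∃ (t : ℝ) (x : P), A.act (t • w) x ≠ x)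
    (hcom : ∀ g ∈ derivedSeries Γ₀ n, ∀ (t : ℝ) (x : P),
      (g : Γ) • A.act (t • w) x = A.act (t • w) ((g : Γ) • x)) :
    ∃ (c : ℝ → M) (T : ℝ), IsPeriodicOrbit R c T := by
  classical
  let Γ₁ : Subgroup Γ := Γ₀.normalCore
  have hΓ₁ : Γ₁.FiniteIndex := Subgroup.finiteIndex_normalCore Γ₀
  let N : Subgroup Γ := (derivedSeries Γ₁ n).map Γ₁.subtype
  have hN : N.Normal := by
    have : (derivedSeries Γ₁ n).Characteristic := inferInstance
    exact inferInstance
  have hN0 : ∀ g ∈ N, ∀ (t : ℝ) (x : P), g • A.act (t • w) x = A.act (t • w) (g • x) := by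
    rintro _ ⟨d, hd, rfl⟩ t x
    have h1 := derivedSeries_map (Subgroup.inclusion (Subgroup.normalCore_le Γ₀)) n hd
    exact hcom _ h1 t x
  obtain ⟨k, hk, t, x, hx⟩ := exists_mem_comLat A hA N w hw hN0
  refine periodic_solvable hα hR hq A (comLat A N) ⟨k, hk, t, x, hx⟩ ?_ Γ₁ hΓ₁ n ?_
  · intro γ
    obtain ⟨B, hB⟩ := hA γ
    exact ⟨B, hB, fun k hk => comLat_inv A hB hk⟩
  · intro g hg k hk t x
    exact hk (g : Γ) ⟨g, hg, rfl⟩ t x

end general

end Pool.Agent.U234.WI
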