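import Mathlib
import Pool.Agent.U234.WI.Real

/-! Locally free actions: virtually invariant sublattices, the monodromy representation. -/

open scoped Topology ContDiff Manifold
open Set Metric Bundle Pool.Agent.Helper186 Pool.Agent.H826R2.WStmt Pool.Agent.TH607.FxStmt

noncomputable section

namespace Pool.Agent.U234.WI

set_option linter.unusedSectionVars false

universe u v w x

variable {E : Type u} [NormedAddCommGroup E] [NormedSpace ℝ E] [FiniteDimensional ℝ E]
  {M : Type v} [TopologicalSpace M] [ChartedSpace E M] [IsManifold 𝓘(ℝ, E) ∞ M]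
  {P : Type w} [TopologicalSpace P] [ChartedSpace E P] [IsManifold 𝓘(ℝ, E) ∞ P]
  {Γ : Type x} [Group Γ] [MulAction Γ P] {m r : ℕ}

section virt

variable [T2Space M] [CompactSpace M] {α : M → Cov E} (hα : IsContact α) {R : M → E}
  (hR : IsReeb α R) [T2Space P] [SigmaCompactSpace P] [ConnectedSpace P]
  {q : P → M} (hq : IsQuotientMap E q Γ)

include hα hR hq

/-- rank at most two, virtual normalisation -/
theorem periodic_virtual_rank (A : TorusAction (pull (E := E) q α) r) (hr0 : 0 < r) (hr : r ≤ 2)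
    (Γ₀ : Subgroup Γ) (hΓ₀ : Γ₀.FiniteIndex) (hA : ∀ γ ∈ Γ₀, ∃ B, Mono A.act γ B) :
    ∃ (c : ℝ → M) (T : ℝ), IsPeriodicOrbit R c T := by
  have hq' : H826R2.Wein.RegCover (E := E) q Γ := hq.toWein
  obtain ⟨n, ι, ⟨𝒟⟩⟩ := hq'.exists_deck
  have hcP := hq'.isContact_pull hα.toWein
  have hRP := hq'.isReeb_lift hα.toWein hR.toWein
  have : LocallyPathConnectedSpace P := ChartedSpace.locallyPathConnectedSpace E P
  have : PathConnectedSpace P := pathConnectedSpace_iff_connectedSpace.2 inferInstance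
  obtain ⟨c, T, h1, h2, h3⟩ := hq'.closed_proj (R := fun x => (R x : TangentSpace 𝓘(ℝ, E) x)) (by
    rcases Nat.lt_or_ge 1 r with h | h
    · obtain rfl : r = 2 := by omega
      have hN : A.toWein.Norm Γ₀ :=
        ⟨fun γ x u => hq'.strict _ (γ : Γ) x u, fun γ => hA (γ : Γ) γ.2⟩
      obtain ⟨k, hk, x, hx⟩ := A.toWein.exists_crit_rank_two hcP hRP (𝒟.restrict Γ₀ hΓ₀) hN
      exact A.toWein.closed_of_crit hcP hRP hk hx
    · let S : TorusSymmetry (pull (E := E) q α) r :=
        ⟨A.act, A.smooth, A.zero, A.add, A.period, A.strict⟩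
      have hN : S.toTS.Norm Γ₀ :=
        ⟨fun γ x u => hq'.strict _ (γ : Γ) x u, fun γ => hA (γ : Γ) γ.2⟩
      obtain ⟨x⟩ : Nonempty P := inferInstance
      have hx : orbitDim E S.act x ≤ 1 := (orbitDim_le_rank S x).trans h
      have hne : ∃ θ y, S.act θ y ≠ y := by
        by_contra hno
        push Not at hno
        have h4 : ∀ κ : Fin r → ℝ, κ ∈ S.toTS.isoAlg x := fun κ =>
          S.toTS.mem_isoAlg_iff.2 fun t => hno (t • κ) x
        have h5 : (fun _ => 1 : Fin r → ℝ) = 0 := A.free x _ (S.toTS.mem_isoAlg.1 (h4 _))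
        have h6 := congrFun h5 ⟨0, hr0⟩
        norm_num at h6
      exact S.toTS.closed_of_small ⟨hcP, hRP⟩ (𝒟.restrict Γ₀ hΓ₀) hN x hx hne)
  exact ⟨c, T, h1, h2, h3⟩

/-- virtually invariant sublattices of rank at most two -/
theorem periodic_virtual_small (A : TorusSymmetry (pull (E := E) q α) m)
    (hfree : LocallyFree E A.act) (L : Submodule ℤ (Fin m → ℤ)) (hL0 : L ≠ ⊥)
    (hL : Module.finrank ℤ L ≤ 2) (Γ₀ : Subgroup Γ) (hΓ₀ : Γ₀.FiniteIndex)
    (hinv : ∀ γ ∈ Γ₀, ∃ B, Mono A.act γ B ∧ ∀ k ∈ L, B.mulVec k ∈ L) :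
    ∃ (c : ℝ → M) (T : ℝ), IsPeriodicOrbit R c T := by
  obtain ⟨C, h1, h2, h3⟩ := exists_basis L
  refine periodic_virtual_rank hα hR hq (subFree A hfree C h3) ?_ hL Γ₀ hΓ₀ ?_
  · rw [Nat.pos_iff_ne_zero]
    intro h0
    apply hL0
    rwa [Submodule.finrank_eq_zero] at h0
  · intro γ hγ
    obtain ⟨B, hB, hBL⟩ := hinv γ hγ
    obtain ⟨N, hN⟩ := exists_restrict L C h1 h2 B hBL
    exact ⟨N, mono_sub A C hB hN⟩

open Pool.Agent.W669.LorStmt in
/-- virtually invariant sublattices with a Lorentzian form -/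
theorem periodic_virtual_lorentz (A : TorusSymmetry (pull (E := E) q α) m)
    (hfree : LocallyFree E A.act) (C : Matrix (Fin m) (Fin r) ℤ)
    (hC : ∀ v : Fin r → ℤ, C.mulVec v = 0 → v = 0)
    (G : Matrix (Fin m) (Fin m) ℝ) (hG : ∀ i j, G i j = G j i)
    (hsig : ∃ e : Fin r → ℝ, 0 < form G (lin C e) (lin C e) ∧
      ∀ v : Fin r → ℝ, form G (lin C e) (lin C v) = 0 → v ≠ 0 →
        form G (lin C v) (lin C v) < 0)
    (Γ₀ : Subgroup Γ) (hΓ₀ : Γ₀.FiniteIndex)
    (hinv : ∀ γ ∈ Γ₀, ∃ B N, Mono A.act γ B ∧ B * C = C * N ∧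
      ∀ u v : Fin r → ℝ, form G (lin C (lin N u)) (lin C (lin N v)) = form G (lin C u) (lin C v)) :
    ∃ (c : ℝ → M) (T : ℝ), IsPeriodicOrbit R c T := by
  have hq' : H826R2.Wein.RegCover (E := E) q Γ := hq.toWein
  obtain ⟨n, ι, ⟨𝒟⟩⟩ := hq'.exists_deck
  have hcP := hq'.isContact_pull hα.toWein
  have hRP := hq'.isReeb_lift hα.toWein hR.toWein
  have : LocallyPathConnectedSpace P := ChartedSpace.locallyPathConnectedSpace E P
  have : PathConnectedSpace P := pathConnectedSpace_iff_connectedSpace.2 inferInstance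
  let S : TorusAction (pull (E := E) q α) r := subFree A hfree C hC
  let Lo : Pool.Agent.W669.Cone.Lor r :=
    { Q := (bil G).compl₁₂ (linL C).toLinearMap (linL C).toLinearMap
      symm := by
        intro u v
        show form G (lin C u) (lin C v) = form G (lin C v) (lin C u)
        unfold form
        rw [Finset.sum_comm]
        refine Finset.sum_congr rfl fun i _ => Finset.sum_congr rfl fun j _ => ?_
        rw [hG j i]
        ring
      e := hsig.choose
      pos := hsig.choose_spec.1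
      neg := fun v h1 h2 => hsig.choose_spec.2 v h1 h2 }
  have hN : S.toWein.Norm Γ₀ := by
    refine ⟨fun γ x u => hq'.strict _ (γ : Γ) x u, fun γ => ?_⟩
    obtain ⟨B, N, hB, hBN, -⟩ := hinv γ γ.2
    exact ⟨N, mono_sub A C hB hBN⟩
  obtain ⟨c, T, h1, h2, h3⟩ := hq'.closed_proj (R := fun x => (R x : TangentSpace 𝓘(ℝ, E) x)) (by
    obtain ⟨k, hk, y, hy⟩ := Pool.Agent.W669.Cone.exists_crit_lorentz' S.toWein hcP hRP
      (𝒟.restrict Γ₀ hΓ₀) hN Lo
      (fun γ => by
        obtain ⟨B, N, hB, hBN, hQ⟩ := hinv γ γ.2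
        refine ⟨N, fun κ x => ?_, fun u v => hQ u v⟩
        refine S.toWein.H_push ((𝒟.restrict Γ₀ hΓ₀).smooth γ) ?_ (hN.strict γ) x
        intro t y
        unfold H826R2.Wein.TAct.fam
        show (γ : Γ) • S.act (t • κ) y = S.act (t • lin N κ) ((γ : Γ) • y)
        rw [← lin_smul]
        exact mono_sub A C hB hBN (t • κ) y)
    exact S.toWein.closed_of_crit hcP hRP hk hy)
  exact ⟨c, T, h1, h2, h3⟩

end virt

/-! ### the monodromy representation of a locally free action -/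

section mono

variable {α : M → Cov E} {q : P → M} (A : TorusSymmetry (pull (E := E) q α) m) [T2Space P]

lemma eq_zero_of_fix (hfree : LocallyFree E A.act) {κ : Fin m → ℝ} {x : P}
    (h : ∀ t : ℝ, A.act (t • κ) x = x) : κ = 0 :=
  hfree x _ (A.toTS.mem_isoAlg.1 (A.toTS.mem_isoAlg_iff.2 h))

lemma mono_unique (hfree : LocallyFree E A.act) (x₀ : P) {γ : Γ} {B B' : Matrix (Fin m) (Fin m) ℤ}
    (h : Mono A.act γ B) (h' : Mono A.act γ B') : B = B' := by
  have h1 : ∀ κ : Fin m → ℝ, lin B κ = lin B' κ := by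
    intro κ
    rw [← sub_eq_zero]
    apply eq_zero_of_fix A hfree (x := x₀)
    intro t
    set x : P := γ⁻¹ • A.act (-(lin B' (t • κ))) x₀ with hx
    have hz : A.act (lin B' (t • κ)) (γ • x) = x₀ := by
      rw [hx, smul_inv_smul, ← A.add, add_neg_cancel, A.zero]
    have h4 : A.act (lin B (t • κ)) (γ • x) = A.act (lin B' (t • κ)) (γ • x) :=
      (h (t • κ) x).symm.trans (h' (t • κ) x)
    conv_lhs => rw [← hz]
    rw [← A.add]
    have h5 : t • (lin B κ - lin B' κ) + lin B' (t • κ) = lin B (t • κ) := by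
      rw [smul_sub, lin_smul, lin_smul, sub_add_cancel]
    rw [h5, h4, hz]
  ext i j
  have h2 := congrFun (h1 (Pi.single j 1)) i
  simp only [lin, Pi.single_apply, mul_ite, mul_one, mul_zero, Finset.sum_ite_eq',
    Finset.mem_univ, if_true] at h2
  exact_mod_cast h2

lemma mono_mul {γ γ' : Γ} {B B' : Matrix (Fin m) (Fin m) ℤ}
    (h : Mono A.act γ B) (h' : Mono A.act γ' B') : Mono A.act (γ * γ') (B * B') := by
  intro θ x
  rw [mul_smul]
  have h1 := h' θ x
  rw [h1]
  have h2 := h (lin B' θ) (γ' • x)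
  show γ • A.act (lin B' θ) (γ' • x) = A.act (lin (B * B') θ) ((γ * γ') • x)
  rw [h2, lin_mul, mul_smul]
  rfl

lemma mono_one : Mono A.act (1 : Γ) (1 : Matrix (Fin m) (Fin m) ℤ) := by
  intro θ x
  show (1 : Γ) • A.act θ x = A.act (lin 1 θ) ((1 : Γ) • x)
  rw [one_smul, one_smul, lin_one]

/-- the monodromy representation -/
def rho (hfree : LocallyFree E A.act) (x₀ : P) (hA : Normalises Γ A.act) :
    Γ →* Matrix (Fin m) (Fin m) ℤ where
  toFun := fun γ => (hA γ).choose
  map_one' := mono_unique A hfree x₀ (hA 1).choose_spec (mono_one A)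
  map_mul' := fun γ γ' => mono_unique A hfree x₀ (hA (γ * γ')).choose_spec
    (mono_mul A (hA γ).choose_spec (hA γ').choose_spec)

lemma rho_spec (hfree : LocallyFree E A.act) (x₀ : P) (hA : Normalises Γ A.act) (γ : Γ) :
    Mono A.act γ (rho A hfree x₀ hA γ) := (hA γ).choose_spec

lemma commute_of_fix {γ : Γ} {B : Matrix (Fin m) (Fin m) ℤ} (hB : Mono A.act γ B)
    {w : Fin m → ℝ} (hw : lin B w = w) (t : ℝ) (x : P) :
    γ • A.act (t • w) x = A.act (t • w) (γ • x) := by
  have h := hB (t • w) x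
  rw [h]
  show A.act (lin B (t • w)) (γ • x) = _
  rw [lin_smul, hw]

end mono

end Pool.Agent.U234.WI
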