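import Mathlib
import Pool.Agent.U234.WI.Virt
import Pool.Agent.U234.WI.Lin3

/-! Local torus symmetries of rank three. -/

open scoped Topology ContDiff Manifold
open Set Metric Bundle Pool.Agent.Helper186 Pool.Agent.H826R2.WStmt Pool.Agent.TH607.FxStmt

noncomputable section

namespace Pool.Agent.U234.WI

set_option linter.unusedSectionVars false

universe u v w x

variable {E : Type u} [NormedAddCommGroup E] [NormedSpace ℝ E] [FiniteDimensional ℝ E]
  {M : Type v} [TopologicalSpace M] [ChartedSpace E M] [IsManifold 𝓘(ℝ, E) ∞ M]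
  {P : Type w} [TopologicalSpace P] [ChartedSpace E P] [IsManifold 𝓘(ℝ, E) ∞ P]
  {Γ : Type x} [Group Γ] [MulAction Γ P] {m r : ℕ}

/-- an action all of whose orbits have the dimension of the torus is locally free -/
lemma free_of_orbitDim {β : P → Cov E} (A : TorusSymmetry β m)
    (h : ∀ x, m ≤ orbitDim E A.act x) : LocallyFree E A.act := by
  intro x κ hκ
  let F : (Fin m → ℝ) →ₗ[ℝ] E :=
    (D (E := Fin m → ℝ) (E' := E) (fun θ : Fin m → ℝ => A.act θ x) 0).toLinearMap
  have h1 := LinearMap.finrank_range_add_finrank_ker F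
  have h2 : m ≤ Module.finrank ℝ (LinearMap.range F) := h x
  rw [Module.finrank_fin_fun] at h1
  have h3 : Module.finrank ℝ (LinearMap.ker F) = 0 := by omega
  have h4 : LinearMap.ker F = ⊥ := Submodule.finrank_eq_zero.1 h3
  have h5 : κ ∈ LinearMap.ker F := hκ
  rw [h4] at h5
  exact h5

section main

variable [T2Space M] [CompactSpace M] {α : M → Cov E} (hα : IsContact α) {R : M → E}
  (hR : IsReeb α R) [T2Space P] [SigmaCompactSpace P] [ConnectedSpace P]
  {q : P → M} (hq : IsQuotientMap E q Γ)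

include hα hR hq

/-- locally free version of the theorem on pieces, with the monodromy representation -/
theorem periodic_fixed (A : TorusSymmetry (pull (E := E) q α) m) (hA : Normalises Γ A.act)
    (hfree : LocallyFree E A.act) (x₀ : P) (Γ₀ : Subgroup Γ) (hΓ₀ : Γ₀.FiniteIndex) (n : ℕ)
    (w : Fin m → ℝ) (hw : w ≠ 0)
    (hfix : ∀ g ∈ derivedSeries Γ₀ n, lin (rho A hfree x₀ hA (g : Γ)) w = w) :
    ∃ (c : ℝ → M) (T : ℝ), IsPeriodicOrbit R c T := by
  refine periodic_piece hα hR hq A hA Γ₀ hΓ₀ n w ?_ ?_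
  · by_contra hno
    push Not at hno
    exact hw (eq_zero_of_fix A hfree (x := x₀) fun t => hno t x₀)
  · intro g hg t x
    exact commute_of_fix A (rho_spec A hfree x₀ hA (g : Γ)) (hfix g hg) t x

/-- **Rank three, virtually reducible monodromy.** -/
theorem periodic_reducible (A : TorusSymmetry (pull (E := E) q α) 3) (hA : Normalises Γ A.act)
    (hfree : LocallyFree E A.act) (Γ₀ : Subgroup Γ) (hΓ₀ : Γ₀.FiniteIndex)
    (V : Submodule ℂ (Fin 3 → ℂ)) (hV0 : V ≠ ⊥) (hV1 : V ≠ ⊤)
    (hV : ∀ γ ∈ Γ₀, ∃ B, Mono A.act γ B ∧ ∀ v ∈ V, (cm B).mulVec v ∈ V) :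
    ∃ (c : ℝ → M) (T : ℝ), IsPeriodicOrbit R c T := by
  classical
  obtain ⟨x₀⟩ : Nonempty P := inferInstance
  set ρ := rho A hfree x₀ hA with hρdef
  have hρ : ∀ γ ∈ Γ₀, ∀ v ∈ V, (cm (ρ γ)).mulVec v ∈ V := by
    intro γ hγ
    obtain ⟨B, hB, hBV⟩ := hV γ hγ
    have h1 : ρ γ = B := mono_unique A hfree x₀ (rho_spec A hfree x₀ hA γ) hB
    rw [h1]
    exact hBV
  let ρ₀ : Γ₀ →* Matrix (Fin 3) (Fin 3) ℤ := ρ.comp Γ₀.subtype
  have hlt := Submodule.finrank_lt hV1
  rw [Module.finrank_fin_fun] at hlt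
  have hpos : Module.finrank ℂ V ≠ 0 := fun h => hV0 (Submodule.finrank_eq_zero.1 h)
  have hnz : ∀ v : Fin 3 → ℂ, v ≠ 0 →
      (fun i => (v i).re) ≠ (0 : Fin 3 → ℝ) ∨ (fun i => (v i).im) ≠ (0 : Fin 3 → ℝ) := by
    intro v hv
    by_contra hno
    push Not at hno
    apply hv
    funext i
    apply Complex.ext
    · exact congrFun hno.1 i
    · exact congrFun hno.2 i
  rcases (by omega : Module.finrank ℂ V = 1 ∨ Module.finrank ℂ V = 2) with h1 | h2
  · obtain ⟨v, hv0, hv⟩ := finrank_eq_one_iff'.1 h1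
    have hv0' : (v : Fin 3 → ℂ) ≠ 0 := fun h => hv0 (Subtype.ext h)
    have hfix := fun (g : Γ₀) (hg : g ∈ derivedSeries Γ₀ 1) =>
      fix_of_eigen ρ₀ hv0' (fun g => by
        obtain ⟨c, hc⟩ := hv ⟨_, hρ g g.2 v v.2⟩
        exact ⟨c, (congrArg Subtype.val hc).symm⟩) hg
    rcases hnz _ hv0' with h | h
    · exact periodic_fixed hα hR hq A hA hfree x₀ Γ₀ hΓ₀ 1 _ h
        fun g hg => (real_fix (hfix g hg)).1
    · exact periodic_fixed hα hR hq A hA hfree x₀ Γ₀ hΓ₀ 1 _ h
        fun g hg => (real_fix (hfix g hg)).2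
  · obtain ⟨f, hf0, hf⟩ := Submodule.exists_le_ker_of_lt_top V (lt_top_iff_ne_top.2 hV1)
    have hker : V = LinearMap.ker f := by
      apply Submodule.eq_of_le_of_finrank_le hf
      have h3 : LinearMap.ker f ≠ ⊤ := fun h => hf0 (LinearMap.ker_eq_top.1 h)
      have h4 := Submodule.finrank_lt h3
      rw [Module.finrank_fin_fun] at h4
      omega
    let y : Fin 3 → ℂ := fun i => f (Pi.single i 1)
    have hfy : ∀ v, f v = ∑ i, y i * v i := by
      intro v
      have h3 : v = ∑ i, v i • (Pi.single i 1 : Fin 3 → ℂ) := by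
        funext j
        simp [Finset.sum_apply, Pi.single_apply]
      conv_lhs => rw [h3]
      rw [map_sum]
      exact Finset.sum_congr rfl fun i _ => by rw [map_smul, smul_eq_mul, mul_comm]
    obtain ⟨v₁, hv₁⟩ : ∃ v, f v ≠ 0 := by
      by_contra hno
      push Not at hno
      exact hf0 (LinearMap.ext hno)
    have hy0 : y ≠ 0 := by
      intro h
      apply hv₁
      rw [hfy, h]
      simp
    have hco : ∀ g : Γ₀, ∃ c : ℂ, Matrix.vecMul y (cm (ρ₀ g)) = c • y := by
      intro g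
      refine ⟨f ((cm (ρ₀ g)).mulVec v₁) / f v₁, ?_⟩
      have h3 : ∀ v, f ((cm (ρ₀ g)).mulVec v) = f ((cm (ρ₀ g)).mulVec v₁) / f v₁ * f v := by
        intro v
        have h4 : v - (f v / f v₁) • v₁ ∈ V := by
          rw [hker, LinearMap.mem_ker, map_sub, map_smul, smul_eq_mul, div_mul_cancel₀ _ hv₁,
            sub_self]
        have h5 := hρ g g.2 _ h4
        rw [hker, LinearMap.mem_ker, Matrix.mulVec_sub, Matrix.mulVec_smul, map_sub, map_smul,
          smul_eq_mul, sub_eq_zero] at h5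
        show f ((cm (ρ g)).mulVec v) = f ((cm (ρ g)).mulVec v₁) / f v₁ * f v
        rw [h5]
        ring
      funext j
      have h4 := h3 (Pi.single j 1)
      rw [hfy] at h4
      have h5 : ∑ i, y i * (cm (ρ₀ g)).mulVec (Pi.single j 1) i = Matrix.vecMul y (cm (ρ₀ g)) j := by
        simp only [Matrix.vecMul, dotProduct]
        refine Finset.sum_congr rfl fun i _ => ?_
        rw [Matrix.mulVec_single_one]
        rfl
      rw [h5] at h4
      rw [h4]
      rfl
    have hfix := fun (g : Γ₀) (hg : g ∈ derivedSeries Γ₀ 1) => fix_of_coeigen ρ₀ hy0 hco hg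
    obtain ⟨y', hy'0, hy'⟩ : ∃ y' : Fin 3 → ℝ, y' ≠ 0 ∧
        ∀ g ∈ derivedSeries Γ₀ 1, ∀ j, ∑ i, y' i * ((ρ (g : Γ) i j : ℤ) : ℝ) = y' j := by
      rcases hnz _ hy0 with h | h
      · exact ⟨_, h, fun g hg => (real_cofix (hfix g hg)).1⟩
      · exact ⟨_, h, fun g hg => (real_cofix (hfix g hg)).2⟩
    let L : Submodule ℤ (Fin 3 → ℤ) := Submodule.span ℤ
      {l | ∃ g ∈ derivedSeries Γ₀ 1, ∃ k : Fin 3 → ℤ, l = (ρ (g : Γ)).mulVec k - k}
    have hL1 : ∀ k ∈ L, ∑ i, y' i * (k i : ℝ) = 0 := by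
      intro k hk
      induction hk using Submodule.span_induction with
      | mem l hl =>
        obtain ⟨g, hg, k, rfl⟩ := hl
        have h3 : ∑ i, y' i * (((ρ (g : Γ)).mulVec k i : ℤ) : ℝ) = ∑ j, y' j * (k j : ℝ) := by
          have h4 : ∀ j, y' j * (k j : ℝ) = ∑ i, y' i * ((ρ (g : Γ) i j : ℤ) : ℝ) * (k j : ℝ) := by
            intro j
            rw [← Finset.sum_mul, hy' g hg j]
          rw [Finset.sum_congr rfl fun j _ => h4 j, Finset.sum_comm]
          refine Finset.sum_congr rfl fun i _ => ?_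
          simp only [Matrix.mulVec, dotProduct]
          push_cast
          rw [Finset.mul_sum]
          exact Finset.sum_congr rfl fun j _ => by ring
        simp only [Pi.sub_apply]
        push_cast
        simp only [mul_sub, Finset.sum_sub_distrib]
        rw [h3, sub_self]
      | zero => simp
      | add a b _ _ ha hb =>
        simp only [Pi.add_apply]
        push_cast
        simp only [mul_add, Finset.sum_add_distrib]
        rw [ha, hb, add_zero]
      | smul c a _ ha =>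
        simp only [Pi.smul_apply, smul_eq_mul]
        push_cast
        have h4 : ∑ i, y' i * ((c : ℝ) * (a i : ℝ)) = (c : ℝ) * ∑ i, y' i * (a i : ℝ) := by
          rw [Finset.mul_sum]
          exact Finset.sum_congr rfl fun i _ => by ring
        rw [h4, ha, mul_zero]
    have hL2 : Module.finrank ℤ L ≤ 2 := by
      have := finrank_lt L y' hy'0 hL1
      omega
    by_cases hL0 : L = ⊥
    · refine periodic_fixed hα hR hq A hA hfree x₀ Γ₀ hΓ₀ 1 (rv (Pi.single 0 1))
        (rv_ne_zero (by simp)) ?_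
      intro g hg
      have h3 : (ρ (g : Γ)).mulVec (Pi.single 0 1) - Pi.single 0 1 ∈ L :=
        Submodule.subset_span ⟨g, hg, _, rfl⟩
      rw [hL0, Submodule.mem_bot, sub_eq_zero] at h3
      rw [← rv_mulVec]
      exact congrArg rv h3
    · refine periodic_virtual_small hα hR hq A hfree L hL0 hL2 Γ₀ hΓ₀ ?_
      intro γ hγ
      refine ⟨ρ γ, rho_spec A hfree x₀ hA γ, ?_⟩
      intro k hk
      induction hk using Submodule.span_induction with
      | mem l hl =>
        obtain ⟨g, hg, k, rfl⟩ := hl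
        have hN : (derivedSeries Γ₀ 1).Normal := derivedSeries_normal Γ₀ 1
        have h3 : (⟨γ, hγ⟩ : Γ₀) * g * (⟨γ, hγ⟩ : Γ₀)⁻¹ ∈ derivedSeries Γ₀ 1 :=
          hN.conj_mem g hg _
        refine Submodule.subset_span ⟨_, h3, (ρ γ).mulVec k, ?_⟩
        have h4 : ρ (((⟨γ, hγ⟩ : Γ₀) * g * (⟨γ, hγ⟩ : Γ₀)⁻¹ : Γ₀) : Γ) * ρ γ =
            ρ γ * ρ (g : Γ) := by
          rw [← map_mul, ← map_mul]
          congr 1
          show γ * (g : Γ) * γ⁻¹ * γ = γ * (g : Γ)
          group
        rw [Matrix.mulVec_sub, Matrix.mulVec_mulVec, Matrix.mulVec_mulVec, h4]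
      | zero => rw [Matrix.mulVec_zero]; exact L.zero_mem
      | add a b _ _ ha hb => rw [Matrix.mulVec_add]; exact L.add_mem ha hb
      | smul c a _ ha => rw [Matrix.mulVec_smul]; exact L.smul_mem c ha

end main

end Pool.Agent.U234.WI
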