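import Mathlib
import Pool.Agent.U234.WI.Rank3

/-! Local torus symmetries of rank three whose monodromy preserves a bilinear form up to factors. -/

open scoped Topology ContDiff Manifold
open Set Metric Bundle Pool.Agent.Helper186 Pool.Agent.H826R2.WStmt Pool.Agent.TH607.FxStmt
open Pool.Agent.W669.LorStmt

noncomputable section

namespace Pool.Agent.U234.WI

set_option linter.unusedSectionVars false

universe u v w x

variable {E : Type u} [NormedAddCommGroup E] [NormedSpace ℝ E] [FiniteDimensional ℝ E]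
  {M : Type v} [TopologicalSpace M] [ChartedSpace E M] [IsManifold 𝓘(ℝ, E) ∞ M]
  {P : Type w} [TopologicalSpace P] [ChartedSpace E P] [IsManifold 𝓘(ℝ, E) ∞ P]
  {Γ : Type x} [Group Γ] [MulAction Γ P] {m r : ℕ}

/-- the real matrix -/
def rm (B : Matrix (Fin m) (Fin m) ℤ) : Matrix (Fin m) (Fin m) ℝ := B.map (Int.cast : ℤ → ℝ)

lemma rm_mul (B C : Matrix (Fin m) (Fin m) ℤ) : rm (B * C) = rm B * rm C :=
  Matrix.map_mul (f := Int.castRingHom ℝ)

lemma rm_one : rm (1 : Matrix (Fin m) (Fin m) ℤ) = 1 :=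
  Matrix.map_one (Int.cast : ℤ → ℝ) Int.cast_zero Int.cast_one

/-- the complexification of a real matrix -/
def cx (S : Matrix (Fin m) (Fin m) ℝ) : Matrix (Fin m) (Fin m) ℂ := S.map Complex.ofReal

lemma cx_mul (B C : Matrix (Fin m) (Fin m) ℝ) : cx (B * C) = cx B * cx C :=
  Matrix.map_mul (f := Complex.ofRealHom)

lemma cx_rm (B : Matrix (Fin m) (Fin m) ℤ) : cx (rm B) = cm B := by
  ext i j
  simp [cx, rm, cm]

lemma cx_transpose (B : Matrix (Fin m) (Fin m) ℝ) : cx B.transpose = (cx B).transpose := rfl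

lemma cx_smul (c : ℝ) (B : Matrix (Fin m) (Fin m) ℝ) : cx (c • B) = (c : ℂ) • cx B := by
  ext i j
  simp [cx]

lemma form_mul (G : Matrix (Fin m) (Fin m) ℝ) (B : Matrix (Fin m) (Fin m) ℤ) (u v : Fin m → ℝ) :
    form G (lin B u) (lin B v) = form ((rm B).transpose * G * rm B) u v := by
  rw [form_eq, form_eq, lin_eq, lin_eq]
  show (rm B).mulVec u ⬝ᵥ G.mulVec ((rm B).mulVec v) = _
  rw [← Matrix.mulVec_mulVec, ← Matrix.mulVec_mulVec, ← Matrix.vecMul_transpose,
    ← Matrix.dotProduct_mulVec]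

section main

variable [T2Space M] [CompactSpace M] {α : M → Cov E} (hα : IsContact α) {R : M → E}
  (hR : IsReeb α R) [T2Space P] [SigmaCompactSpace P] [ConnectedSpace P]
  {q : P → M} (hq : IsQuotientMap E q Γ)

include hα hR hq

/-- degenerate forms -/
theorem periodic_form_degenerate (A : TorusSymmetry (pull (E := E) q α) 3)
    (hA : Normalises Γ A.act)
    (hfree : LocallyFree E A.act) (Γ₀ : Subgroup Γ) (hΓ₀ : Γ₀.FiniteIndex)
    (S : Matrix (Fin 3) (Fin 3) ℝ) (hS : S ≠ 0) (hdet : S.det = 0)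
    (hinv : ∀ γ ∈ Γ₀, ∃ B, Mono A.act γ B ∧ ∃ c : ℝ, (rm B).transpose * S * rm B = c • S) :
    ∃ (c : ℝ → M) (T : ℝ), IsPeriodicOrbit R c T := by
  classical
  obtain ⟨x₀⟩ : Nonempty P := inferInstance
  let V : Submodule ℂ (Fin 3 → ℂ) := LinearMap.ker (Matrix.mulVecLin (cx S))
  have hmem : ∀ v, v ∈ V ↔ (cx S).mulVec v = 0 := fun v => LinearMap.mem_ker
  refine periodic_reducible hα hR hq A hA hfree Γ₀ hΓ₀ V ?_ ?_ ?_
  · obtain ⟨v, hv0, hv⟩ := Matrix.exists_mulVec_eq_zero_iff.2 hdet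
    intro hV
    have h1 : (fun i => (v i : ℂ)) ∈ V := by
      rw [hmem]
      funext i
      have h2 := congrArg (fun x : ℝ => (x : ℂ)) (congrFun hv i)
      simp only [Matrix.mulVec, dotProduct, Complex.ofReal_sum, Complex.ofReal_mul,
        Pi.zero_apply, Complex.ofReal_zero] at h2
      exact h2
    rw [hV, Submodule.mem_bot] at h1
    apply hv0
    funext i
    have h2 := congrFun h1 i
    simpa using h2
  · intro hV
    apply hS
    ext i j
    have h1 : (Pi.single j 1 : Fin 3 → ℂ) ∈ V := by rw [hV]; trivial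
    rw [hmem, Matrix.mulVec_single_one] at h1
    have h2 : ((S i j : ℝ) : ℂ) = 0 := congrFun h1 i
    exact_mod_cast h2
  · intro γ hγ
    obtain ⟨B, hB, c, hc⟩ := hinv γ hγ
    obtain ⟨B', hB'⟩ := hA γ⁻¹
    have h1 : B * B' = 1 := by
      apply mono_unique A hfree x₀ (γ := γ * γ⁻¹) (mono_mul A hB hB')
      rw [mul_inv_cancel]
      exact mono_one A
    refine ⟨B, hB, fun v hv => ?_⟩
    rw [hmem] at hv ⊢
    have h2 : (cm B).transpose * cx S * cm B = (c : ℂ) • cx S := by
      rw [← cx_rm, ← cx_transpose, ← cx_mul, ← cx_mul, hc, cx_smul]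
    have h3 : (cm B').transpose * (cm B).transpose = 1 := by
      rw [← Matrix.transpose_mul, ← cm_mul, h1, cm_one, Matrix.transpose_one]
    have h4 : ((cm B).transpose * cx S * cm B).mulVec v = 0 := by
      rw [h2, Matrix.smul_mulVec, hv, smul_zero]
    have h5 : (cx S).mulVec ((cm B).mulVec v) =
        (cm B').transpose.mulVec (((cm B).transpose * cx S * cm B).mulVec v) := by
      rw [Matrix.mulVec_mulVec, Matrix.mulVec_mulVec]
      congr 1
      rw [← Matrix.mul_assoc, ← Matrix.mul_assoc, h3, Matrix.one_mul]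
    rw [h5, h4, Matrix.mulVec_zero]

/-- nondegenerate symmetric forms -/
theorem periodic_form_nondegenerate (A : TorusSymmetry (pull (E := E) q α) 3)
    (hA : Normalises Γ A.act)
    (hfree : LocallyFree E A.act) (Γ₀ : Subgroup Γ) (hΓ₀ : Γ₀.FiniteIndex)
    (S : Matrix (Fin 3) (Fin 3) ℝ) (hs : ∀ i j, S i j = S j i) (hdet : S.det ≠ 0)
    (hinv : ∀ γ ∈ Γ₀, ∃ B, Mono A.act γ B ∧ ∃ c : ℝ, (rm B).transpose * S * rm B = c • S) :
    ∃ (c : ℝ → M) (T : ℝ), IsPeriodicOrbit R c T := by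
  classical
  obtain ⟨x₀⟩ : Nonempty P := inferInstance
  have hinv' : ∀ γ ∈ Γ₀, ∃ B, Mono A.act γ B ∧ (rm B).transpose * S * rm B = S := by
    intro γ hγ
    obtain ⟨B, hB, c, hc⟩ := hinv γ hγ
    obtain ⟨B', hB'⟩ := hA γ⁻¹
    have h1 : B * B' = 1 := by
      apply mono_unique A hfree x₀ (γ := γ * γ⁻¹) (mono_mul A hB hB')
      rw [mul_inv_cancel]
      exact mono_one A
    have h2 : (rm B).det ^ 2 = 1 := by
      have h3 : B.det * B'.det = 1 := by rw [← Matrix.det_mul, h1, Matrix.det_one]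
      have h4 : B.det ^ 2 = 1 := by
        rcases Int.isUnit_iff.1 (IsUnit.of_mul_eq_one _ h3) with h | h <;> rw [h] <;> norm_num
      have h5 : (rm B).det = ((B.det : ℤ) : ℝ) := by
        exact ((Int.castRingHom ℝ).map_det B).symm
      rw [h5]
      exact_mod_cast h4
    have h3 : c ^ 3 = 1 := by
      have h4 := congrArg Matrix.det hc
      rw [Matrix.det_mul, Matrix.det_mul, Matrix.det_transpose, Matrix.det_smul,
        Fintype.card_fin] at h4
      have h5 : S.det * ((rm B).det ^ 2) = c ^ 3 * S.det := by rw [← h4]; ring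
      rw [h2, mul_one] at h5
      exact mul_right_cancel₀ hdet (by rw [one_mul]; exact h5.symm)
    have h4 : c = 1 := by
      have h5 : (c - 1) * (c ^ 2 + c + 1) = 0 := by ring_nf; linarith
      rcases mul_eq_zero.1 h5 with h | h
      · linarith
      · nlinarith [sq_nonneg (c + 1 / 2)]
    exact ⟨B, hB, by rw [hc, h4, one_smul]⟩
  obtain ⟨s, hs1, hcl⟩ := classify S hs hdet
  have hG : ∀ γ ∈ Γ₀, ∃ B, Mono A.act γ B ∧
      ∀ u v, form (s • S) (lin B u) (lin B v) = form (s • S) u v := by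
    intro γ hγ
    obtain ⟨B, hB, hc⟩ := hinv' γ hγ
    refine ⟨B, hB, fun u v => ?_⟩
    rw [form_mul, Matrix.mul_smul, Matrix.smul_mul, hc]
  rcases hcl with hdef | hlor
  · -- the definite case: finite monodromy
    set ρ := rho A hfree x₀ hA with hρdef
    let ρ₀ : Γ₀ →* Matrix (Fin 3) (Fin 3) ℤ := ρ.comp Γ₀.subtype
    have hfin : (Set.range ρ₀).Finite := by
      refine (finite_definite (s • S) hdef).subset ?_
      rintro _ ⟨γ, rfl⟩
      obtain ⟨B, hB, hBG⟩ := hG γ γ.2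
      have h1 : ρ₀ γ = B := mono_unique A hfree x₀ (rho_spec A hfree x₀ hA (γ : Γ)) hB
      intro v
      rw [h1]
      exact hBG v v
    let f : Γ₀ →* (Matrix (Fin 3) (Fin 3) ℤ)ˣ := ρ₀.toHomUnits
    have hf : ∀ γ, ((f γ : (Matrix (Fin 3) (Fin 3) ℤ)ˣ) : Matrix (Fin 3) (Fin 3) ℤ) = ρ₀ γ :=
      fun γ => MonoidHom.coe_toHomUnits ρ₀ γ
    have hrange : Finite f.range := by
      have h1 : (f.range : Set (Matrix (Fin 3) (Fin 3) ℤ)ˣ).Finite := by
        apply Set.Finite.of_finite_image (f := Units.val) _ (fun a _ b _ h => Units.ext h)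
        refine hfin.subset ?_
        rintro _ ⟨_, ⟨γ, rfl⟩, rfl⟩
        exact ⟨γ, (hf γ).symm⟩
      exact h1.to_subtype
    have hK : f.ker.FiniteIndex := Subgroup.finiteIndex_ker f
    let Γ₁ : Subgroup Γ := f.ker.map Γ₀.subtype
    have hΓ₁ : Γ₁.FiniteIndex := by
      refine ⟨?_⟩
      show (f.ker.map Γ₀.subtype).index ≠ 0
      rw [Subgroup.index_map_subtype]
      exact mul_ne_zero hK.index_ne_zero hΓ₀.index_ne_zero
    refine periodic_fixed hα hR hq A hA hfree x₀ Γ₁ hΓ₁ 0 (rv (Pi.single 0 1))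
      (rv_ne_zero (by simp)) ?_
    rintro ⟨g, hg⟩ -
    obtain ⟨γ, hγ, rfl⟩ := hg
    have h1 : f γ = 1 := hγ
    have h2 : ρ₀ γ = 1 := by rw [← hf, h1]; rfl
    show lin (ρ₀ γ) _ = _
    rw [h2, lin_one]
  · -- the Lorentzian case
    let A' : TorusAction (pull (E := E) q α) 3 :=
      ⟨A.act, A.smooth, A.zero, A.add, A.period, A.strict, hfree⟩
    refine exists_periodic_lorentz α hα R hR q hq A' hA (s • S) hlor ⟨Γ₀, hΓ₀, ?_⟩
    intro γ hγ
    obtain ⟨B, hB, hBG⟩ := hG γ hγ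
    exact ⟨B, hB, hBG⟩

/-- **Rank three, a bilinear form preserved up to factors.** -/
theorem periodic_form (A : TorusSymmetry (pull (E := E) q α) 3) (hA : Normalises Γ A.act)
    (hfree : LocallyFree E A.act) (Γ₀ : Subgroup Γ) (hΓ₀ : Γ₀.FiniteIndex)
    (S : Matrix (Fin 3) (Fin 3) ℝ) (hS : S ≠ 0)
    (hinv : ∀ γ ∈ Γ₀, ∃ B, Mono A.act γ B ∧ ∃ c : ℝ, (rm B).transpose * S * rm B = c • S) :
    ∃ (c : ℝ → M) (T : ℝ), IsPeriodicOrbit R c T := by
  classical
  have hT : ∀ (B : Matrix (Fin 3) (Fin 3) ℤ) (c : ℝ), (rm B).transpose * S * rm B = c • S →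
      (rm B).transpose * S.transpose * rm B = c • S.transpose := by
    intro B c h
    have h1 := congrArg Matrix.transpose h
    rw [Matrix.transpose_mul, Matrix.transpose_mul, Matrix.transpose_transpose,
      Matrix.transpose_smul, ← Matrix.mul_assoc] at h1
    exact h1
  -- symmetric part
  by_cases h0 : S + S.transpose = 0
  · -- skew forms
    have hdet : S.det = 0 := by
      have h1 : S.transpose = -S := by
        rw [eq_neg_iff_add_eq_zero, add_comm]
        exact h0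
      have h2 := congrArg Matrix.det h1
      rw [Matrix.det_transpose, Matrix.det_neg, Fintype.card_fin] at h2
      linarith [show ((-1 : ℝ)) ^ 3 * S.det = - S.det by ring]
    exact periodic_form_degenerate hα hR hq A hA hfree Γ₀ hΓ₀ S hS hdet hinv
  · have hinv' : ∀ γ ∈ Γ₀, ∃ B, Mono A.act γ B ∧ ∃ c : ℝ,
        (rm B).transpose * (S + S.transpose) * rm B = c • (S + S.transpose) := by
      intro γ hγ
      obtain ⟨B, hB, c, hc⟩ := hinv γ hγ
      refine ⟨B, hB, c, ?_⟩
      rw [Matrix.mul_add, Matrix.add_mul, hc, hT B c hc, smul_add]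
    by_cases hdet : (S + S.transpose).det = 0
    · exact periodic_form_degenerate hα hR hq A hA hfree Γ₀ hΓ₀ _ h0 hdet hinv'
    · refine periodic_form_nondegenerate hα hR hq A hA hfree Γ₀ hΓ₀ _ ?_ hdet hinv'
      intro i j
      rw [Matrix.add_apply, Matrix.add_apply, Matrix.transpose_apply, Matrix.transpose_apply,
        add_comm]

end main

end Pool.Agent.U234.WI
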