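import Mathlib
import Pool.Agent.U234.WI.Form3

/-! Weinstein conjecture: local torus symmetries whose monodromy has a small piece. Definitions of
the statement and the main theorem. -/

open scoped Topology ContDiff Manifold
open Set Metric Bundle Pool.Agent.Helper186 Pool.Agent.H826R2.WStmt Pool.Agent.TH607.FxStmt
open Pool.Agent.W669.LorStmt

noncomputable section

namespace Pool.Agent.U234.WI

set_option linter.unusedSectionVars false

universe u v w x

section defs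

variable {P : Type*} (Γ : Type*) [Group Γ] [MulAction Γ P] {m : ℕ} (act : (Fin m → ℝ) → P → P)

/-- For some subgroup `Γ₀` of finite index of the deck group, the elements of some term of the
derived series of `Γ₀` commute with a nontrivial one-parameter group `t ↦ act (t w)` of the torus;
the real direction `w` may be irrational and need not be fixed by the monodromy. -/
def SolvablePiece : Prop :=
  ∃ (Γ₀ : Subgroup Γ) (n : ℕ) (w : Fin m → ℝ), Γ₀.FiniteIndex ∧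
    (∃ (t : ℝ) (x : P), act (t • w) x ≠ x) ∧
    ∀ g ∈ derivedSeries Γ₀ n, ∀ (t : ℝ) (x : P),
      (g : Γ) • act (t • w) x = act (t • w) ((g : Γ) • x)

/-- The monodromy preserves a subgroup `L` of `ℤ^m` of rank at most two whose one-parameter groups
do not all act trivially (the deck group normalises a sub-torus of dimension at most two). -/
def SmallSublattice : Prop :=
  ∃ L : Submodule ℤ (Fin m → ℤ), Module.finrank ℤ L ≤ 2 ∧
    (∃ k ∈ L, ∃ (t : ℝ) (x : P), act (t • fun i => (k i : ℝ)) x ≠ x) ∧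
    ∀ γ : Γ, ∃ B, Mono act γ B ∧ ∀ k ∈ L, B.mulVec k ∈ L

/-- The monodromy virtually preserves a nonzero subgroup `L` of `ℤ^m` of rank at most two. -/
def VirtuallySmallSublattice : Prop :=
  ∃ (Γ₀ : Subgroup Γ) (L : Submodule ℤ (Fin m → ℤ)), Γ₀.FiniteIndex ∧ L ≠ ⊥ ∧
    Module.finrank ℤ L ≤ 2 ∧ ∀ γ ∈ Γ₀, ∃ B, Mono act γ B ∧ ∀ k ∈ L, B.mulVec k ∈ L

/-- the real span of a subgroup of `ℤ^m` -/
def realSpan (L : Submodule ℤ (Fin m → ℤ)) : Submodule ℝ (Fin m → ℝ) :=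
  Submodule.span ℝ {v | ∃ k ∈ L, v = fun i => (k i : ℝ)}

/-- The monodromy virtually preserves a subgroup `L` of `ℤ^m` and a symmetric bilinear form on the
real span of `L` which is Lorentzian there. -/
def LorentzSublattice : Prop :=
  ∃ (Γ₀ : Subgroup Γ) (L : Submodule ℤ (Fin m → ℤ)) (G : Matrix (Fin m) (Fin m) ℝ),
    Γ₀.FiniteIndex ∧ (∀ i j, G i j = G j i) ∧
    (∃ e ∈ realSpan L, 0 < form G e e ∧
      ∀ v ∈ realSpan L, form G e v = 0 → v ≠ 0 → form G v v < 0) ∧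
    ∀ γ ∈ Γ₀, ∃ B, Mono act γ B ∧ (∀ k ∈ L, B.mulVec k ∈ L) ∧
      ∀ u ∈ realSpan L, ∀ v ∈ realSpan L, form G (lin B u) (lin B v) = form G u v

/-- The monodromy matrices of a subgroup of finite index have a common eigenvector in `ℂ^m`. -/
def VirtualEigenvector : Prop :=
  ∃ (Γ₀ : Subgroup Γ) (v : Fin m → ℂ), Γ₀.FiniteIndex ∧ v ≠ 0 ∧
    ∀ γ ∈ Γ₀, ∃ B, Mono act γ B ∧ ∃ c : ℂ, (B.map (Int.cast : ℤ → ℂ)).mulVec v = c • v

/-- The monodromy matrices of a subgroup of finite index preserve a complex subspace of `ℂ^m` other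
than `0` and `ℂ^m`. -/
def VirtuallyReducible : Prop :=
  ∃ (Γ₀ : Subgroup Γ) (V : Submodule ℂ (Fin m → ℂ)), Γ₀.FiniteIndex ∧ V ≠ ⊥ ∧ V ≠ ⊤ ∧
    ∀ γ ∈ Γ₀, ∃ B, Mono act γ B ∧ ∀ v ∈ V, (B.map (Int.cast : ℤ → ℂ)).mulVec v ∈ V

/-- The monodromy matrices of a subgroup of finite index preserve, up to real factors, a nonzero
real bilinear form on `ℝ^m`, which need be neither symmetric nor nondegenerate. -/
def VirtuallyConformal : Prop :=
  ∃ (Γ₀ : Subgroup Γ) (S : Matrix (Fin m) (Fin m) ℝ), Γ₀.FiniteIndex ∧ S ≠ 0 ∧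
    ∀ γ ∈ Γ₀, ∃ B, Mono act γ B ∧ ∃ c : ℝ,
      (B.map (Int.cast : ℤ → ℝ)).transpose * S * B.map (Int.cast : ℤ → ℝ) = c • S

end defs

lemma lin_mem_realSpan {m r : ℕ} {L : Submodule ℤ (Fin m → ℤ)} {C : Matrix (Fin m) (Fin r) ℤ}
    (h1 : ∀ v, C.mulVec v ∈ L) (θ : Fin r → ℝ) : lin C θ ∈ realSpan L := by
  have h5 : lin C θ = ∑ j, θ j • rv (C.mulVec (Pi.single j 1)) := by
    funext i
    simp only [lin, Finset.sum_apply, Pi.smul_apply, smul_eq_mul, rv]
    refine Finset.sum_congr rfl fun j _ => ?_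
    rw [Matrix.mulVec_single_one]
    exact mul_comm _ _
  rw [h5]
  exact Submodule.sum_mem _ fun j _ => Submodule.smul_mem _ _
    (Submodule.subset_span ⟨_, h1 _, rfl⟩)

lemma exists_of_mem_realSpan {m r : ℕ} {L : Submodule ℤ (Fin m → ℤ)}
    {C : Matrix (Fin m) (Fin r) ℤ} (h2 : ∀ k ∈ L, ∃ v, C.mulVec v = k) {e : Fin m → ℝ}
    (he : e ∈ realSpan L) : ∃ θ, lin C θ = e := by
  have h3 : realSpan L ≤ LinearMap.range (linL C).toLinearMap := by
    unfold realSpan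
    rw [Submodule.span_le]
    rintro _ ⟨k, hk, rfl⟩
    obtain ⟨v, rfl⟩ := h2 k hk
    exact ⟨rv v, (rv_mulVec C v).symm⟩
  obtain ⟨θ, hθ⟩ := h3 he
  exact ⟨θ, hθ⟩

section main

variable {E : Type u} [NormedAddCommGroup E] [NormedSpace ℝ E] [FiniteDimensional ℝ E]
  {M : Type v} [TopologicalSpace M] [ChartedSpace E M] [IsManifold 𝓘(ℝ, E) ∞ M]
  {P : Type w} [TopologicalSpace P] [ChartedSpace E P] [IsManifold 𝓘(ℝ, E) ∞ P]
  {Γ : Type x} [Group Γ] [MulAction Γ P] {m : ℕ}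
  [T2Space M] [CompactSpace M] {α : M → Cov E} (hα : IsContact α) {R : M → E}
  (hR : IsReeb α R) [T2Space P] [SigmaCompactSpace P] [ConnectedSpace P]
  {q : P → M} (hq : IsQuotientMap E q Γ)

include hα hR hq

theorem periodic_lorentz_sublattice (A : TorusSymmetry (pull (E := E) q α) m)
    (hfree : LocallyFree E A.act) (h : LorentzSublattice Γ A.act) :
    ∃ (c : ℝ → M) (T : ℝ), IsPeriodicOrbit R c T := by
  obtain ⟨Γ₀, L, G, hΓ₀, hG, ⟨e, he, hpos, hneg⟩, hinv⟩ := h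
  obtain ⟨C, h1, h2, h3⟩ := exists_basis L
  obtain ⟨e', rfl⟩ := exists_of_mem_realSpan h2 he
  refine periodic_virtual_lorentz hα hR hq A hfree C h3 G hG ⟨e', hpos, ?_⟩ Γ₀ hΓ₀ ?_
  · intro v hv hv0
    refine hneg _ (lin_mem_realSpan h1 v) hv ?_
    intro h0
    exact hv0 (injective_real C h3 v h0)
  · intro γ hγ
    obtain ⟨B, hB, hBL, hform⟩ := hinv γ hγ
    obtain ⟨N, hN⟩ := exists_restrict L C h1 h2 B hBL
    refine ⟨B, N, hB, hN, fun u v => ?_⟩
    rw [← lin_mul, ← lin_mul, ← hN, lin_mul, lin_mul]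
    exact hform _ (lin_mem_realSpan h1 u) _ (lin_mem_realSpan h1 v)

/-- common eigenvectors -/
theorem periodic_eigenvector (A : TorusSymmetry (pull (E := E) q α) m) (hA : Normalises Γ A.act)
    (hfree : LocallyFree E A.act) (h : VirtualEigenvector Γ A.act) :
    ∃ (c : ℝ → M) (T : ℝ), IsPeriodicOrbit R c T := by
  obtain ⟨Γ₀, v, hΓ₀, hv0, hv⟩ := h
  obtain ⟨x₀⟩ : Nonempty P := inferInstance
  let ρ₀ : Γ₀ →* Matrix (Fin m) (Fin m) ℤ := (rho A hfree x₀ hA).comp Γ₀.subtype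
  have hfix := fun (g : Γ₀) (hg : g ∈ derivedSeries Γ₀ 1) =>
    fix_of_eigen ρ₀ hv0 (fun g => by
      obtain ⟨B, hB, c, hc⟩ := hv g g.2
      have h1 : ρ₀ g = B := mono_unique A hfree x₀ (rho_spec A hfree x₀ hA (g : Γ)) hB
      rw [h1]
      exact ⟨c, hc⟩) hg
  have hnz : (fun i => (v i).re) ≠ (0 : Fin m → ℝ) ∨ (fun i => (v i).im) ≠ (0 : Fin m → ℝ) := by
    by_contra hno
    push Not at hno
    apply hv0
    funext i
    apply Complex.ext
    · exact congrFun hno.1 i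
    · exact congrFun hno.2 i
  rcases hnz with h | h
  · exact periodic_fixed hα hR hq A hA hfree x₀ Γ₀ hΓ₀ 1 _ h
      fun g hg => (real_fix (hfix g hg)).1
  · exact periodic_fixed hα hR hq A hA hfree x₀ Γ₀ hΓ₀ 1 _ h
      fun g hg => (real_fix (hfix g hg)).2

/-- **Rank three.** -/
theorem periodic_rank_three (A : TorusSymmetry (pull (E := E) q α) m) (hA : Normalises Γ A.act)
    (hne : ∃ θ y, A.act θ y ≠ y) (hm : m = 3)
    (h : VirtuallyReducible Γ A.act ∨ VirtuallyConformal Γ A.act) :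
    ∃ (c : ℝ → M) (T : ℝ), IsPeriodicOrbit R c T := by
  subst hm
  by_cases hx : ∃ x, orbitDim E A.act x ≤ 2
  · obtain ⟨x, hx⟩ := hx
    exact exists_periodic_of_small α hα R hR q hq A hA hne x hx
  · push Not at hx
    have hfree : LocallyFree E A.act := free_of_orbitDim A fun x => hx x
    rcases h with ⟨Γ₀, V, hΓ₀, hV0, hV1, hV⟩ | ⟨Γ₀, S, hΓ₀, hS, hinv⟩
    · exact periodic_reducible hα hR hq A hA hfree Γ₀ hΓ₀ V hV0 hV1 hV
    · exact periodic_form hα hR hq A hA hfree Γ₀ hΓ₀ S hS hinv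

/-- **Main theorem.** -/
theorem periodic_main (A : TorusSymmetry (pull (E := E) q α) m) (hA : Normalises Γ A.act)
    (hne : ∃ θ y, A.act θ y ≠ y)
    (h : SolvablePiece Γ A.act ∨ SmallSublattice Γ A.act ∨
      (LocallyFree E A.act ∧ (VirtualEigenvector Γ A.act ∨
        VirtuallySmallSublattice Γ A.act ∨ LorentzSublattice Γ A.act)) ∨
      (m = 3 ∧ (VirtuallyReducible Γ A.act ∨ VirtuallyConformal Γ A.act))) :
    ∃ (c : ℝ → M) (T : ℝ), IsPeriodicOrbit R c T := by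
  rcases h with ⟨Γ₀, n, w, hΓ₀, hw, hcom⟩ | ⟨L, hL, hne', hinv⟩ | ⟨hfree, h⟩ | ⟨hm, h⟩
  · exact periodic_piece hα hR hq A hA Γ₀ hΓ₀ n w hw hcom
  · exact periodic_small hα hR hq A L hL hne' hinv
  · rcases h with h | ⟨Γ₀, L, hΓ₀, hL0, hL, hinv⟩ | h
    · exact periodic_eigenvector hα hR hq A hA hfree h
    · exact periodic_virtual_small hα hR hq A hfree L hL0 hL Γ₀ hΓ₀ hinv
    · exact periodic_lorentz_sublattice hα hR hq A hfree h
  · exact periodic_rank_three hα hR hq A hA hne hm h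

end main

end Pool.Agent.U234.WI
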